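import Pool.Agent.V11254.Kat.Defs

/-!
# Pulled back ideals, sparse sets, and the ZFC example
-/

set_option autoImplicit false

open Set Cardinal

namespace Pool.Agent.V11254.Kat

/-- The ideal of all sets whose image under `g` lies in `K`. -/
def pull (K : Set (Set ℕ)) (g : ℕ → ℕ) : Set (Set ℕ) := {X | g '' X ∈ K}

lemma pull_isIdeal {K : Set (Set ℕ)} (hK : IsIdeal K) {g : ℕ → ℕ} (hg : Function.Surjective g) :
    IsIdeal (pull K g) where
  finite_mem F hF := hK.finite_mem _ (hF.image g)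
  down A hA B hB := hK.down _ hA _ (image_mono hB)
  union A hA B hB := by
    change g '' (A ∪ B) ∈ K
    rw [image_union]
    exact hK.union _ hA _ hB
  proper h := by
    change g '' univ ∈ K at h
    rw [image_univ, hg.range_eq] at h
    exact hK.proper h

lemma katetov_pull {K A : Set (Set ℕ)} (hK : IsIdeal K) (g : ℕ → ℕ) (h : KatetovLE A K) :
    KatetovLE A (pull K g) := by
  obtain ⟨f, hf⟩ := h
  refine ⟨f ∘ g, fun a ha => ?_⟩
  refine hK.down _ (hf a ha) _ ?_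
  rintro _ ⟨n, hn, rfl⟩
  exact hn

lemma katetov_osum {A J₀ J₁ : Set (Set ℕ)} (h₀ : KatetovLE A J₀) (h₁ : KatetovLE A J₁) :
    KatetovLE A (osum J₀ J₁) := by
  obtain ⟨f, hf⟩ := h₀
  obtain ⟨g, hg⟩ := h₁
  refine ⟨fun n => if n % 2 = 0 then f (n / 2) else g (n / 2), fun a ha => ⟨?_, ?_⟩⟩
  · have : {n : ℕ | 2 * n ∈ (fun n => if n % 2 = 0 then f (n / 2) else g (n / 2)) ⁻¹' a} =
        f ⁻¹' a := by
      ext n
      simp
    rw [this]
    exact hf a ha
  · have : {n : ℕ | 2 * n + 1 ∈ (fun n => if n % 2 = 0 then f (n / 2) else g (n / 2)) ⁻¹' a} =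
        g ⁻¹' a := by
      ext n
      have h1 : (2 * n + 1) % 2 = 1 := by omega
      have h2 : (2 * n + 1) / 2 = n := by omega
      simp [h2]
    rw [this]
    exact hg a ha

/-- First coordinate of the pairing. -/
def g0 (t : ℕ) : ℕ := (Nat.unpair t).1
/-- Second coordinate of the pairing. -/
def g1 (t : ℕ) : ℕ := (Nat.unpair t).2

lemma g0_surj : Function.Surjective g0 := fun m => ⟨Nat.pair m 0, by simp [g0]⟩
lemma g1_surj : Function.Surjective g1 := fun m => ⟨Nat.pair 0 m, by simp [g1]⟩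

/-- If all initial segments are pulled back into `pull K g1`, every row is unbounded. -/
lemma row_unbounded {K : Set (Set ℕ)} (hK : IsIdeal K) {f : ℕ → ℕ}
    (hf : ∀ N, f ⁻¹' (Iio N) ∈ pull K g1) (m N : ℕ) : ∃ n, N ≤ f (Nat.pair m n) := by
  by_contra hcon
  push Not at hcon
  have h1 := hf N
  change g1 '' (f ⁻¹' (Iio N)) ∈ K at h1
  refine hK.proper (hK.down _ h1 _ ?_)
  intro n _
  exact ⟨Nat.pair m n, hcon n, by simp [g1]⟩

/-- A set meeting every row is not in `pull K g0`. -/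
lemma not_mem_pull_of_rows {K : Set (Set ℕ)} (hK : IsIdeal K) {X : Set ℕ}
    (hX : ∀ m, ∃ n, Nat.pair m n ∈ X) : X ∉ pull K g0 := by
  intro h
  change g0 '' X ∈ K at h
  refine hK.proper (hK.down _ h _ ?_)
  intro m _
  obtain ⟨n, hn⟩ := hX m
  exact ⟨Nat.pair m n, hn, by simp [g0]⟩

/-- The sparse sets: at most `c (k+1)` elements below `2^k`. -/
def sparse : Set (Set ℕ) := {a | ∃ c : ℕ, ∀ k : ℕ, (a ∩ Iio (2 ^ k)).ncard ≤ c * (k + 1)}

lemma sparse_finite {F : Set ℕ} (hF : F.Finite) : F ∈ sparse := by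
  refine ⟨F.ncard, fun k => ?_⟩
  calc (F ∩ Iio (2 ^ k)).ncard ≤ F.ncard := ncard_le_ncard inter_subset_left hF
    _ ≤ F.ncard * (k + 1) := Nat.le_mul_of_pos_right _ (Nat.succ_pos k)

lemma sparse_down {a b : Set ℕ} (ha : a ∈ sparse) (hb : b ⊆ a) : b ∈ sparse := by
  obtain ⟨c, hc⟩ := ha
  refine ⟨c, fun k => le_trans (ncard_le_ncard (inter_subset_inter_left _ hb) ?_) (hc k)⟩
  exact (finite_Iio _).subset inter_subset_right

lemma sparse_union {a b : Set ℕ} (ha : a ∈ sparse) (hb : b ∈ sparse) : a ∪ b ∈ sparse := by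
  obtain ⟨c, hc⟩ := ha
  obtain ⟨d, hd⟩ := hb
  refine ⟨c + d, fun k => ?_⟩
  rw [union_inter_distrib_right, add_mul]
  exact (ncard_union_le _ _).trans (add_le_add (hc k) (hd k))

lemma two_pow_gt (c : ℕ) : ∃ k : ℕ, c * (k + 1) < 2 ^ k := by
  refine ⟨4 * (c + 1), ?_⟩
  have h1 : c + 1 < 2 ^ (c + 1) := Nat.lt_two_pow_self
  have h2 : 2 ^ (4 * (c + 1)) = (2 ^ (c + 1)) ^ 4 := by rw [← pow_mul]; ring_nf
  have h3 : (c + 2) ^ 4 ≤ (2 ^ (c + 1)) ^ 4 := Nat.pow_le_pow_left h1 4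
  rw [h2]
  refine lt_of_lt_of_le ?_ h3
  nlinarith [sq_nonneg c, sq_nonneg (c * c), Nat.zero_le c]

lemma sparse_not_univ : Set.univ ∉ sparse := by
  rintro ⟨c, hc⟩
  obtain ⟨k, hk⟩ := two_pow_gt c
  have := hc k
  rw [univ_inter] at this
  have h2 : (Iio (2 ^ k) : Set ℕ).ncard = 2 ^ k := by
    rw [← Finset.coe_Iio, ncard_coe_finset, Nat.card_Iio]
  omega

lemma sparse_isIdeal : IsIdeal sparse where
  finite_mem _ hF := sparse_finite hF
  down _ hA _ hB := sparse_down hA hB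
  union _ hA _ hB := sparse_union hA hB
  proper := sparse_not_univ

lemma range_sparse {h : ℕ → ℕ} (hh : ∀ m, 2 ^ m ≤ h m) : range h ∈ sparse := by
  refine ⟨1, fun k => ?_⟩
  have h1 : range h ∩ Iio (2 ^ k) ⊆ h '' Iio k := by
    rintro _ ⟨⟨m, rfl⟩, hm⟩
    refine ⟨m, ?_, rfl⟩
    by_contra hcon
    have h2 : k ≤ m := not_lt.1 hcon
    have h3 : 2 ^ k ≤ 2 ^ m := Nat.pow_le_pow_right (by norm_num) h2
    have h4 : h m < 2 ^ k := hm
    have := hh m
    omega
  calc (range h ∩ Iio (2 ^ k)).ncard ≤ (h '' Iio k).ncard :=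
        ncard_le_ncard h1 ((finite_Iio k).image h)
    _ ≤ (Iio k : Set ℕ).ncard := ncard_image_le (finite_Iio k)
    _ = k := by rw [← Finset.coe_Iio, ncard_coe_finset, Nat.card_Iio]
    _ ≤ 1 * (k + 1) := by omega

/-- The sparse ideal is not Katetov below the intersection of its two pullbacks. -/
lemma sparse_not_katetov {K : Set (Set ℕ)} (hK : IsIdeal K) :
    ¬ KatetovLE sparse (pull K g0 ∩ pull K g1) := by
  rintro ⟨f, hf⟩
  have hrow := row_unbounded hK (f := f) (fun N => (hf (Iio N) (sparse_finite (finite_Iio N))).2)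
  choose n hn using fun m => hrow m (2 ^ m)
  have ha := range_sparse (h := fun m => f (Nat.pair m (n m))) hn
  exact not_mem_pull_of_rows hK (X := f ⁻¹' range (fun m => f (Nat.pair m (n m))))
    (fun m => ⟨n m, m, rfl⟩) (hf _ ha).1

/-- **(ii) fails in ZFC.** -/
theorem ii_fails : ∃ I J₀ J₁ : Set (Set ℕ), IsIdeal I ∧ IsIdeal J₀ ∧ IsIdeal J₁ ∧
    pK I (osum J₀ J₁) = ⊤ ∧ pK I (J₀ ∩ J₁) < ⊤ := by
  refine ⟨sparse, pull sparse g0, pull sparse g1, sparse_isIdeal,
    pull_isIdeal sparse_isIdeal g0_surj, pull_isIdeal sparse_isIdeal g1_surj, ?_, ?_⟩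
  · unfold pK
    refine iInf_eq_top.2 fun A => iInf_eq_top.2 fun hA => ?_
    refine absurd ?_ hA.2
    have hid : KatetovLE A sparse := ⟨id, fun a ha => hA.1 ha⟩
    exact katetov_osum (katetov_pull sparse_isIdeal g0 hid) (katetov_pull sparse_isIdeal g1 hid)
  · unfold pK
    refine lt_of_le_of_lt (iInf₂_le sparse ⟨subset_rfl, sparse_not_katetov sparse_isIdeal⟩) ?_
    exact WithTop.coe_lt_top _

end Pool.Agent.V11254.Kat
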