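import Mathlib

/-!
# Slalom numbers and Katetov numbers of ideals on the natural numbers

The definitions: ideals, the disjoint sum of two ideals, the slalom numbers `sl_e(I,J)`,
`sl_e(star,J)` and the Katetov numbers `p_K(I,J)`, `p_K(star,J)`. A minimum over the empty set is
infinity, so the numbers live in `WithTop Cardinal`.
-/

set_option autoImplicit false

open Set Cardinal

namespace Pool.Agent.V11254.Kat

/-- An ideal on `ℕ`: a family of sets containing the finite sets, closed under subsets and finite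
unions, and not containing `ℕ`. -/
structure IsIdeal (J : Set (Set ℕ)) : Prop where
  finite_mem : ∀ F : Set ℕ, F.Finite → F ∈ J
  down : ∀ A ∈ J, ∀ B : Set ℕ, B ⊆ A → B ∈ J
  union : ∀ A ∈ J, ∀ B ∈ J, A ∪ B ∈ J
  proper : Set.univ ∉ J

/-- The disjoint sum `J₀ ⊕ J₁`, moved to `ℕ` by the bijection `(i, n) ↦ 2 n + i`. -/
def osum (J₀ J₁ : Set (Set ℕ)) : Set (Set ℕ) :=
  {A | {n : ℕ | 2 * n ∈ A} ∈ J₀ ∧ {n : ℕ | 2 * n + 1 ∈ A} ∈ J₁}

/-- `A ≤_K J`: there is `f : ℕ → ℕ` with `f⁻¹[a] ∈ J` for all `a ∈ A`. -/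
def KatetovLE (A J : Set (Set ℕ)) : Prop :=
  ∃ f : ℕ → ℕ, ∀ a ∈ A, f ⁻¹' a ∈ J

/-- `A` generates an ideal: no finite union of members of `A` is cofinite. -/
def GeneratesIdeal (A : Set (Set ℕ)) : Prop :=
  ∀ F : Finset (Set ℕ), (∀ a ∈ F, a ∈ A) → ¬ ((⋃ a ∈ F, a)ᶜ : Set ℕ).Finite

/-- `sl_e(I, J)`: the least size of a family `S` of functions `s : ℕ → I` such that every
`x : ℕ → ℕ` admits `s ∈ S` with `{n | x n ∈ s n} ∉ J`. -/
noncomputable def sle (I J : Set (Set ℕ)) : WithTop Cardinal.{0} :=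
  ⨅ (S : Set (ℕ → Set ℕ)) (_ : (∀ s ∈ S, ∀ n, s n ∈ I) ∧
    ∀ x : ℕ → ℕ, ∃ s ∈ S, {n : ℕ | x n ∈ s n} ∉ J), ((#S : Cardinal.{0}) : WithTop Cardinal.{0})

/-- `sl_e(star, J)`: the least value of `sl_e(I, J)` over all ideals `I`. -/
noncomputable def sleStar (J : Set (Set ℕ)) : WithTop Cardinal.{0} :=
  ⨅ (I : Set (Set ℕ)) (_ : IsIdeal I), sle I J

/-- `p_K(I, J)`: the least size of a family `A ⊆ I` with `A ≰_K J`. -/
noncomputable def pK (I J : Set (Set ℕ)) : WithTop Cardinal.{0} :=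
  ⨅ (A : Set (Set ℕ)) (_ : A ⊆ I ∧ ¬ KatetovLE A J), ((#A : Cardinal.{0}) : WithTop Cardinal.{0})

/-- `p_K(star, J)`: the least size of a family `A` which generates an ideal and has `A ≰_K J`. -/
noncomputable def pKStar (J : Set (Set ℕ)) : WithTop Cardinal.{0} :=
  ⨅ (A : Set (Set ℕ)) (_ : GeneratesIdeal A ∧ ¬ KatetovLE A J),
    ((#A : Cardinal.{0}) : WithTop Cardinal.{0})

/-- A tower: a family of infinite sets, linearly ordered by almost inclusion, which has no infinite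
pseudointersection. -/
def IsTower (T : Set (Set ℕ)) : Prop :=
  (∀ a ∈ T, a.Infinite) ∧ (∀ a ∈ T, ∀ b ∈ T, (a \ b).Finite ∨ (b \ a).Finite) ∧
    ¬ ∃ B : Set ℕ, B.Infinite ∧ ∀ a ∈ T, (B \ a).Finite

/-- The tower number `𝔱`: the least size of a tower. -/
noncomputable def towerNumber : Cardinal.{0} :=
  sInf {κ : Cardinal.{0} | ∃ T : Set (Set ℕ), IsTower T ∧ #T = κ}

/-- The pseudointersection number `𝔭`: the least size of a family of sets all of whose finite
subfamilies have infinite intersection, and which has no infinite pseudointersection. -/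
noncomputable def pNumber : Cardinal.{0} :=
  sInf {κ : Cardinal.{0} | ∃ T : Set (Set ℕ),
    (∀ F : Finset (Set ℕ), (∀ a ∈ F, a ∈ T) → (⋂ a ∈ F, a : Set ℕ).Infinite) ∧
    (¬ ∃ B : Set ℕ, B.Infinite ∧ ∀ a ∈ T, (B \ a).Finite) ∧ #T = κ}

end Pool.Agent.V11254.Kat
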