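import Mathlib

/-!
# The hypotheses: the weak Freese-Nation property, Luzin sets, the covering number of category
-/

set_option autoImplicit false

open Set Cardinal

namespace Pool.Agent.V11254.Kat

/-- `F` witnesses the weak Freese-Nation property of `P(ℕ)`: all `F(a)` are countable, and for
`a ⊆ b` there is `c ∈ F(a) ∩ F(b)` with `a ⊆ c ⊆ b`. -/
def WFN (F : Set ℕ → Set (Set ℕ)) : Prop :=
  (∀ a, (F a).Countable) ∧ ∀ a b : Set ℕ, a ⊆ b → ∃ c ∈ F a, c ∈ F b ∧ a ⊆ c ∧ c ⊆ b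

/-- `cov(M)`: the least number of meager sets covering the Baire space `ℕ → ℕ`. -/
noncomputable def covM : Cardinal.{0} :=
  sInf {κ : Cardinal.{0} | ∃ C : Set (Set (ℕ → ℕ)), (∀ X ∈ C, IsMeagre X) ∧
    ⋃₀ C = Set.univ ∧ #C = κ}

/-- A Luzin set of size `ℵ₁`: it meets every meager set in a countable set. -/
def IsLuzin (L : Set (ℕ → ℕ)) : Prop :=
  #L = ℵ₁ ∧ ∀ X : Set (ℕ → ℕ), IsMeagre X → (L ∩ X).Countable

end Pool.Agent.V11254.Kat
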