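import Pool.Agent.V11254.Kat.Base

/-!
# Independent functions and an ideal above all small families
-/

set_option autoImplicit false

open Set Cardinal

namespace Pool.Agent.V11254.Kat

/-- The countable index set of finite pattern tables. -/
abbrev Pat : Type := Σ k : ℕ, ((Fin k → Bool) → ℕ)

/-- An enumeration of the pattern tables. -/
noncomputable def patEnum : ℕ → Pat := (exists_surjective_nat Pat).choose

lemma patEnum_surj : Function.Surjective patEnum := (exists_surjective_nat Pat).choose_spec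

/-- The independent functions, indexed by the Cantor space. -/
noncomputable def ind (z : ℕ → Bool) (n : ℕ) : ℕ :=
  (patEnum n).2 (fun i => z i)

lemma exists_level (Z : Finset (ℕ → Bool)) :
    ∃ k₀ : ℕ, ∀ k, k₀ ≤ k → ∀ z ∈ Z, ∀ w ∈ Z, (∀ i : Fin k, z i = w i) → z = w := by
  classical
  have h1 : ∀ p : (ℕ → Bool) × (ℕ → Bool), ∃ i : ℕ, p.1 ≠ p.2 → p.1 i ≠ p.2 i := by
    intro p
    by_cases h : p.1 = p.2
    · exact ⟨0, fun h' => absurd h h'⟩
    · obtain ⟨i, hi⟩ := Function.ne_iff.1 h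
      exact ⟨i, fun _ => hi⟩
  choose d hd using h1
  refine ⟨(Z ×ˢ Z).sup (fun p => d p + 1), fun k hk z hz w hw hzw => ?_⟩
  by_contra hne
  have h2 : d (z, w) + 1 ≤ (Z ×ˢ Z).sup (fun p => d p + 1) :=
    Finset.le_sup (f := fun p => d p + 1) (Finset.mk_mem_product hz hw)
  exact hd (z, w) hne (hzw ⟨d (z, w), by omega⟩)

lemma ind_indep (Z : Finset (ℕ → Bool)) (v : (ℕ → Bool) → ℕ) :
    {n : ℕ | ∀ z ∈ Z, ind z n = v z}.Infinite := by
  classical
  obtain ⟨k₀, hk₀⟩ := exists_level Z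
  have h1 : ∀ k, k₀ ≤ k → ∃ n, (patEnum n).1 = k ∧ ∀ z ∈ Z, ind z n = v z := by
    intro k hk
    let p : (Fin k → Bool) → ℕ := fun u =>
      if h : ∃ z ∈ Z, (fun i : Fin k => z i) = u then v h.choose else 0
    obtain ⟨n, hn⟩ := patEnum_surj ⟨k, p⟩
    refine ⟨n, by rw [hn], fun z hz => ?_⟩
    have hex : ∃ z' ∈ Z, (fun i : Fin k => z' i) = (fun i : Fin k => z i) := ⟨z, hz, rfl⟩
    have h2 : ind z n = p (fun i => z i) := by
      unfold ind
      rw [hn]
    rw [h2]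
    have h3 : p (fun i => z i) = v hex.choose := dif_pos hex
    rw [h3]
    have h4 : hex.choose = z := by
      refine hk₀ k hk _ hex.choose_spec.1 _ hz fun i => ?_
      exact congrFun hex.choose_spec.2 i
    rw [h4]
  choose n hn1 hn2 using fun k : ℕ => h1 (k₀ + k) (Nat.le_add_right _ _)
  refine Set.infinite_of_injective_forall_mem (f := n) ?_ hn2
  intro a b hab
  have h5 := hn1 a
  have h6 := hn1 b
  rw [hab] at h5
  omega

/-- The ideal generated by the preimages `f_r⁻¹[a]`, `a ∈ r`. -/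
def genIdeal {R : Type} (fam : R → Set (Set ℕ)) (F : R → ℕ → ℕ) : Set (Set ℕ) :=
  {X | ∃ T : Finset (R × Set ℕ), (∀ p ∈ T, p.2 ∈ fam p.1) ∧
    (X \ ⋃ p ∈ T, F p.1 ⁻¹' p.2).Finite}

lemma genIdeal_isIdeal {R : Type} (fam : R → Set (Set ℕ)) (hfam : ∀ r, GeneratesIdeal (fam r))
    (F : R → ℕ → ℕ)
    (hF : ∀ (Z : Finset R) (v : R → ℕ), {n : ℕ | ∀ z ∈ Z, F z n = v z}.Infinite) :
    IsIdeal (genIdeal fam F) where
  finite_mem X hX := ⟨∅, by simp, hX.subset sdiff_subset⟩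
  down A hA B hB := by
    obtain ⟨T, hT, hfin⟩ := hA
    exact ⟨T, hT, hfin.subset (sdiff_subset_sdiff_left hB)⟩
  union A hA B hB := by
    classical
    obtain ⟨T, hT, hfin⟩ := hA
    obtain ⟨U, hU, hfin'⟩ := hB
    refine ⟨T ∪ U, fun p hp => ?_, (hfin.union hfin').subset ?_⟩
    · rcases Finset.mem_union.1 hp with h | h
      · exact hT p h
      · exact hU p h
    · rintro x ⟨hx | hx, hx'⟩
      · left
        refine ⟨hx, fun hcon => hx' ?_⟩
        simp only [mem_iUnion] at hcon ⊢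
        obtain ⟨p, hp, hxp⟩ := hcon
        exact ⟨p, Finset.mem_union_left _ hp, hxp⟩
      · right
        refine ⟨hx, fun hcon => hx' ?_⟩
        simp only [mem_iUnion] at hcon ⊢
        obtain ⟨p, hp, hxp⟩ := hcon
        exact ⟨p, Finset.mem_union_right _ hp, hxp⟩
  proper := by
    classical
    rintro ⟨T, hT, hfin⟩
    have h1 : ∀ r : R, ∃ v : ℕ, ∀ p ∈ T, p.1 = r → v ∉ p.2 := by
      intro r
      have h2 := hfam r ((T.filter (fun p => p.1 = r)).image Prod.snd) (by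
        intro a ha
        obtain ⟨p, hp, rfl⟩ := Finset.mem_image.1 ha
        obtain ⟨hp1, hp2⟩ := Finset.mem_filter.1 hp
        rw [← hp2]
        exact hT p hp1)
      obtain ⟨v, hv⟩ : ((⋃ a ∈ (T.filter (fun p => p.1 = r)).image Prod.snd, a)ᶜ : Set ℕ).Nonempty := by
        rw [nonempty_iff_ne_empty]
        intro he
        rw [he] at h2
        exact h2 finite_empty
      refine ⟨v, fun p hp hpr hvp => hv ?_⟩
      simp only [mem_iUnion]
      exact ⟨p.2, Finset.mem_image.2 ⟨p, Finset.mem_filter.2 ⟨hp, hpr⟩, rfl⟩, hvp⟩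
    choose v hv using h1
    refine hF (T.image Prod.fst) v (hfin.subset ?_)
    intro n hn
    refine ⟨mem_univ _, fun hcon => ?_⟩
    simp only [mem_iUnion] at hcon
    obtain ⟨p, hp, hnp⟩ := hcon
    have h3 : F p.1 n = v p.1 := hn p.1 (Finset.mem_image.2 ⟨p, hp, rfl⟩)
    have h4 : F p.1 n ∈ p.2 := hnp
    rw [h3] at h4
    exact hv p.1 p hp rfl h4

lemma katetov_genIdeal {R : Type} (fam : R → Set (Set ℕ)) (F : R → ℕ → ℕ) (r : R) :
    KatetovLE (fam r) (genIdeal fam F) := by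
  refine ⟨F r, fun a ha => ⟨{(r, a)}, by simpa using ha, ?_⟩⟩
  have : F r ⁻¹' a \ ⋃ p ∈ ({(r, a)} : Finset (R × Set ℕ)), F p.1 ⁻¹' p.2 = ∅ := by
    simp
  rw [this]
  exact finite_empty

/-- If `2^κ = 𝔠`, `κ` infinite, there is an ideal Katetov above all families of size at most `κ`
which generate an ideal. -/
lemma exists_big_ideal {κ : Cardinal.{0}} (hκ : ℵ₀ ≤ κ) (hc : 2 ^ κ = 𝔠) :
    ∃ K : Set (Set ℕ), IsIdeal K ∧
      ∀ A : Set (Set ℕ), GeneratesIdeal A → #A ≤ κ → KatetovLE A K := by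
  classical
  let R : Type := {A : Set (Set ℕ) // #A ≤ κ ∧ GeneratesIdeal A}
  have hR : #R ≤ #(ℕ → Bool) := by
    have h1 : #R ≤ #{A : Set (Set ℕ) // #A ≤ κ} :=
      Cardinal.mk_le_of_injective (f := fun r : R => (⟨r.1, r.2.1⟩ : {A : Set (Set ℕ) // #A ≤ κ}))
        (fun a b hab => by
          have := congrArg Subtype.val hab
          exact Subtype.ext this)
    have h2 : #{A : Set (Set ℕ) // #A ≤ κ} ≤ (max #(Set ℕ) ℵ₀) ^ κ := mk_bounded_set_le _ _
    have h3 : #(Set ℕ) = 𝔠 := by rw [mk_set, mk_nat, two_power_aleph0]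
    have h4 : #(ℕ → Bool) = 𝔠 := by simp
    rw [h3, max_eq_left aleph0_le_continuum] at h2
    rw [h4]
    calc #R ≤ 𝔠 ^ κ := h1.trans h2
      _ = 𝔠 := by rw [← hc, ← power_mul, mul_eq_self hκ]
  obtain ⟨e⟩ : Nonempty (R ↪ (ℕ → Bool)) := by
    rwa [← Cardinal.le_def]
  refine ⟨genIdeal (fun r : R => r.1) (fun r => ind (e r)), genIdeal_isIdeal _ (fun r => r.2.2) _ ?_,
    fun A hA hAκ => katetov_genIdeal (fun r : R => r.1) (fun r => ind (e r)) ⟨A, hAκ, hA⟩⟩
  intro Z v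
  have h5 := ind_indep (Z.map e) (fun z => if h : ∃ r, e r = z then v h.choose else 0)
  refine h5.mono fun n hn z hz => ?_
  have h6 := hn (e z) (Finset.mem_map_of_mem _ hz)
  have hex : ∃ r, e r = e z := ⟨z, rfl⟩
  rw [dif_pos hex, e.injective hex.choose_spec] at h6
  exact h6

end Pool.Agent.V11254.Kat
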