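import Pool.Agent.V11254.Kat.Tower

/-!
# The pseudointersection number as a lower bound, and an upper bound by cardinal arithmetic
-/

set_option autoImplicit false

open Set Cardinal

namespace Pool.Agent.V11254.Kat

/-- The strong finite intersection property. -/
def SFIP (T : Set (Set ℕ)) : Prop :=
  ∀ F : Finset (Set ℕ), (∀ a ∈ F, a ∈ T) → (⋂ a ∈ F, a : Set ℕ).Infinite

/-- Having an infinite pseudointersection. -/
def HasPI (T : Set (Set ℕ)) : Prop := ∃ B : Set ℕ, B.Infinite ∧ ∀ a ∈ T, (B \ a).Finite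

lemma hasPI_of_lt {T : Set (Set ℕ)} (hT : SFIP T) (h : #T < pNumber) : HasPI T := by
  by_contra hcon
  exact notMem_of_lt_csInf' h ⟨T, hT, hcon, rfl⟩

/-- Countable families with the strong finite intersection property have pseudointersections. -/
lemma hasPI_countable {T : Set (Set ℕ)} (hT : SFIP T) (hc : T.Countable) : HasPI T := by
  classical
  rcases T.eq_empty_or_nonempty with rfl | hne
  · exact ⟨Set.univ, infinite_univ, by simp⟩
  obtain ⟨t, ht⟩ := hc.exists_eq_range hne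
  have h2 : ∀ k : ℕ, ∃ b : ℕ, k ≤ b ∧ ∀ j ≤ k, b ∈ t j := by
    intro k
    have h3 := hT ((Finset.range (k + 1)).image t) (by
      intro a ha
      obtain ⟨j, _, rfl⟩ := Finset.mem_image.1 ha
      rw [ht]
      exact mem_range_self j)
    obtain ⟨b, hb, hbk⟩ := (h3.sdiff (finite_Iio k)).nonempty
    refine ⟨b, not_lt.1 hbk, fun j hj => ?_⟩
    simp only [mem_iInter] at hb
    exact hb (t j) (Finset.mem_image.2 ⟨j, Finset.mem_range.2 (by omega), rfl⟩)
  choose b hb1 hb2 using h2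
  refine ⟨range b, ?_, fun u hu => ?_⟩
  · refine Set.infinite_of_not_bddAbove ?_
    rintro ⟨M, hM⟩
    have h3 := hM ⟨M + 1, rfl⟩
    have h4 := hb1 (M + 1)
    omega
  · rw [ht] at hu
    obtain ⟨m, rfl⟩ := hu
    refine ((finite_Iio m).image b).subset ?_
    rintro _ ⟨⟨k, rfl⟩, hk⟩
    by_contra hkm
    refine hk (hb2 k m ?_)
    by_contra hlt
    exact hkm ⟨k, not_le.1 hlt, rfl⟩

lemma tower_sfip {T : Set (Set ℕ)} (hT : IsTower T) : SFIP T := by
  classical
  intro F hF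
  rcases F.eq_empty_or_nonempty with rfl | hne
  · simpa using infinite_univ
  obtain ⟨v, hv, hvb⟩ := tower_finite hT F hF hne
  have h1 : (⋃ b ∈ F, v \ b).Finite := Set.Finite.biUnion (Finset.finite_toSet _) fun b hb => hvb b hb
  refine ((hT.1 v (hF v hv)).sdiff h1).mono ?_
  rintro x ⟨hx, hx'⟩
  simp only [mem_iInter]
  intro b hb
  by_contra hxb
  refine hx' ?_
  simp only [mem_iUnion]
  exact ⟨b, hb, hx, hxb⟩

lemma pSet_nonempty : {κ : Cardinal.{0} | ∃ T : Set (Set ℕ),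
    (∀ F : Finset (Set ℕ), (∀ a ∈ F, a ∈ T) → (⋂ a ∈ F, a : Set ℕ).Infinite) ∧
    (¬ ∃ B : Set ℕ, B.Infinite ∧ ∀ a ∈ T, (B \ a).Finite) ∧ #T = κ}.Nonempty := by
  obtain ⟨T, hT⟩ := exists_tower
  exact ⟨_, T, tower_sfip hT, hT.2.2, rfl⟩

lemma aleph0_lt_pNumber : ℵ₀ < pNumber := by
  refine lt_of_lt_of_le (Order.lt_succ ℵ₀) (le_csInf pSet_nonempty ?_)
  rintro κ ⟨T, hT, hno, rfl⟩
  refine Order.succ_le_of_lt ?_
  by_contra hcon
  exact hno (hasPI_countable hT (Cardinal.mk_le_aleph0_iff.1 (not_lt.1 hcon)))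

lemma pNumber_le_continuum : pNumber ≤ 𝔠 := by
  obtain ⟨T, hT⟩ := exists_tower
  have h1 : pNumber ≤ #T := csInf_le' ⟨T, tower_sfip hT, hT.2.2, rfl⟩
  refine h1.trans ((mk_set_le T).trans ?_)
  rw [mk_set, mk_nat, two_power_aleph0]

/-- Fewer than `𝔭` functions are bounded. -/
lemma bounded_of_lt {G : Set (ℕ → ℕ)} (hG : #G < pNumber) :
    ∃ H : ℕ → ℕ, ∀ g ∈ G, ∃ N, ∀ n, N ≤ n → g n ≤ H n := by
  classical
  let mx : (ℕ → ℕ) → ℕ → ℕ := fun g n => (Finset.range (n + 1)).sup g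
  have hmx : ∀ g : ℕ → ℕ, ∀ n m, n ≤ m → g n ≤ mx g m := fun g n m hnm =>
    Finset.le_sup (f := g) (Finset.mem_range.2 (by omega))
  let Z : (ℕ → ℕ) → Set ℕ := fun g => {t | mx g (g0 t) < g1 t}
  let W : ℕ → Set ℕ := fun m => {t | m ≤ g0 t}
  have hsf : SFIP (Z '' G ∪ range W) := by
    intro F hF
    -- choose a row bound and functions
    have h1 : ∀ a : Set ℕ, ∃ p : (ℕ → ℕ) × ℕ, a ∈ F →
        ∀ m k, p.2 ≤ m → p.1 m < k → Nat.pair m k ∈ a := by
      intro a
      by_cases ha : a ∈ F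
      · rcases hF a ha with ⟨g, _, rfl⟩ | ⟨m₀, rfl⟩
        · refine ⟨(mx g, 0), fun _ m k _ hk => ?_⟩
          change mx g (g0 (Nat.pair m k)) < g1 (Nat.pair m k)
          simpa [g0, g1] using hk
        · refine ⟨(fun _ => 0, m₀), fun _ m k hm _ => ?_⟩
          change m₀ ≤ g0 (Nat.pair m k)
          simpa [g0] using hm
      · exact ⟨(fun _ => 0, 0), fun h => absurd h ha⟩
    choose p hp using h1
    refine Set.infinite_of_injective_forall_mem
      (f := fun j : ℕ => Nat.pair (F.sup (fun a => (p a).2) + j)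
        (F.sup (fun a => (p a).1 (F.sup (fun a => (p a).2) + j)) + 1)) ?_ ?_
    · intro i j hij
      have := (Nat.pair_eq_pair.1 hij).1
      omega
    · intro j
      simp only [mem_iInter]
      intro a ha
      refine hp a ha _ _ ?_ ?_
      · have h2 : (p a).2 ≤ F.sup (fun a => (p a).2) := Finset.le_sup (f := fun a => (p a).2) ha
        omega
      · have h2 : (p a).1 (F.sup (fun a => (p a).2) + j) ≤
            F.sup (fun a' => (p a').1 (F.sup (fun a => (p a).2) + j)) :=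
          Finset.le_sup (f := fun a' => (p a').1 (F.sup (fun a => (p a).2) + j)) ha
        omega
  have hcard : #(Z '' G ∪ range W : Set (Set ℕ)) < pNumber := by
    refine lt_of_le_of_lt (mk_union_le _ _) ?_
    refine add_lt_of_lt aleph0_lt_pNumber.le (lt_of_le_of_lt mk_image_le hG) ?_
    exact lt_of_le_of_lt (mk_range_le.trans (by simp)) aleph0_lt_pNumber
  obtain ⟨B, hB, hBT⟩ := hasPI_of_lt hsf hcard
  have h3 : ∀ n, ∃ t ∈ B, n ≤ g0 t := by
    intro n
    obtain ⟨t, ht, ht'⟩ := (hB.sdiff (hBT (W n) (Or.inr ⟨n, rfl⟩))).nonempty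
    refine ⟨t, ht, ?_⟩
    by_contra hcon
    exact ht' ⟨ht, hcon⟩
  choose t htB htn using h3
  refine ⟨fun n => g1 (t n), fun g hg => ?_⟩
  have hfin := hBT (Z g) (Or.inl ⟨g, hg, rfl⟩)
  obtain ⟨M, hM⟩ := (hfin.image g0).bddAbove
  refine ⟨M + 1, fun n hn => ?_⟩
  have h4 : t n ∈ Z g := by
    by_contra hcon
    have h5 : g0 (t n) ≤ M := hM ⟨t n, ⟨htB n, hcon⟩, rfl⟩
    have h6 := htn n
    omega
  have h5 : mx g (g0 (t n)) < g1 (t n) := h4
  exact (hmx g n _ (htn n)).trans h5.le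

/-- Fewer than `𝔭` slaloms are evaded modulo the finite sets. -/
lemma evade_p {I : Set (Set ℕ)} (hI : IsIdeal I) {S : Set (ℕ → Set ℕ)}
    (hS : ∀ s ∈ S, ∀ n, s n ∈ I) (hc : #S < pNumber) :
    ∃ x : ℕ → ℕ, ∀ s ∈ S, {n : ℕ | x n ∈ s n}.Finite := by
  classical
  have h1 : ∀ n, HasPI ((fun s : ℕ → Set ℕ => (s n)ᶜ) '' S) := by
    intro n
    refine hasPI_of_lt ?_ (lt_of_le_of_lt mk_image_le hc)
    intro F hF hfin
    have h2 : ∀ F' : Finset (Set ℕ), (∀ a ∈ F', aᶜ ∈ I) → (⋂ a ∈ F', a : Set ℕ)ᶜ ∈ I := by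
      intro F'
      induction F' using Finset.induction_on with
      | empty =>
        intro _
        simpa using hI.finite_mem ∅ finite_empty
      | insert a s ha ih =>
        intro hF'
        rw [Finset.set_biInter_insert, compl_inter]
        exact hI.union _ (hF' a (Finset.mem_insert_self _ _)) _
          (ih fun b hb => hF' b (Finset.mem_insert_of_mem hb))
    have h3 := h2 F (fun a ha => by
      obtain ⟨s, hs, rfl⟩ := hF a ha
      simpa using hS s hs n)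
    have h4 := hI.union _ h3 _ (hI.finite_mem _ hfin)
    rw [compl_union_self] at h4
    exact hI.proper h4
  choose P hP hPS using h1
  have h5 : ∀ s ∈ S, ∀ n, (P n ∩ s n).Finite := by
    intro s hs n
    have := hPS n _ ⟨s, hs, rfl⟩
    simpa [sdiff_eq] using this
  let gs : (ℕ → Set ℕ) → ℕ → ℕ := fun s n => sSup (P n ∩ s n)
  obtain ⟨H, hH⟩ := bounded_of_lt (G := gs '' S) (lt_of_le_of_lt mk_image_le hc)
  have h6 : ∀ n, ∃ v ∈ P n, H n < v := by
    intro n
    obtain ⟨v, hv, hv'⟩ := ((hP n).sdiff (finite_Iic (H n))).nonempty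
    exact ⟨v, hv, not_le.1 hv'⟩
  choose x hxP hxH using h6
  refine ⟨x, fun s hs => ?_⟩
  obtain ⟨N, hN⟩ := hH (gs s) ⟨s, hs, rfl⟩
  refine (finite_Iio N).subset fun n hn => ?_
  by_contra hcon
  have h7 := hN n (not_lt.1 hcon)
  have h8 : x n ≤ gs s n := le_csSup (h5 s hs n).bddAbove ⟨hxP n, hn⟩
  have h9 := hxH n
  omega

lemma p_le_sle {I J : Set (Set ℕ)} (hI : IsIdeal I) (hJ : IsIdeal J) :
    ((pNumber : Cardinal.{0}) : WithTop Cardinal.{0}) ≤ sle I J := by
  unfold sle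
  refine le_iInf₂ fun S hS => WithTop.coe_le_coe.2 ?_
  by_contra hcon
  obtain ⟨x, hx⟩ := evade_p hI hS.1 (not_le.1 hcon)
  obtain ⟨s, hs, hs'⟩ := hS.2 x
  exact hs' (hJ.finite_mem _ (hx s hs))

lemma sle_le {I J : Set (Set ℕ)} (hI : IsIdeal I) (hJ : IsIdeal J) :
    sle I J ≤ ((𝔠 : Cardinal.{0}) : WithTop Cardinal.{0}) := by
  unfold sle
  have h1 : (∀ s ∈ range (fun (x : ℕ → ℕ) (n : ℕ) => ({x n} : Set ℕ)), ∀ n, s n ∈ I) ∧
      ∀ x : ℕ → ℕ, ∃ s ∈ range (fun (x : ℕ → ℕ) (n : ℕ) => ({x n} : Set ℕ)),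
        {n : ℕ | x n ∈ s n} ∉ J := by
    constructor
    · rintro _ ⟨x, rfl⟩ n
      exact hI.finite_mem _ (finite_singleton _)
    · intro x
      refine ⟨_, ⟨x, rfl⟩, ?_⟩
      have : {n : ℕ | x n ∈ ({x n} : Set ℕ)} = Set.univ := by
        ext n
        simp
      rw [this]
      exact hJ.proper
  refine (iInf₂_le (range (fun (x : ℕ → ℕ) (n : ℕ) => ({x n} : Set ℕ))) h1).trans
    (WithTop.coe_le_coe.2 (mk_range_le.trans ?_))
  simp

lemma p_le_sleStar {J : Set (Set ℕ)} (hJ : IsIdeal J) :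
    ((pNumber : Cardinal.{0}) : WithTop Cardinal.{0}) ≤ sleStar J :=
  le_iInf₂ fun _ hI => p_le_sle hI hJ

/-- The ideal generated by a family. -/
def gen (A : Set (Set ℕ)) : Set (Set ℕ) :=
  {X | ∃ F : Finset (Set ℕ), (∀ a ∈ F, a ∈ A) ∧ (X \ ⋃ a ∈ F, a).Finite}

lemma gen_isIdeal {A : Set (Set ℕ)} (hA : GeneratesIdeal A) : IsIdeal (gen A) where
  finite_mem X hX := ⟨∅, by simp, hX.subset sdiff_subset⟩
  down X hX Y hY := by
    obtain ⟨F, hF, hfin⟩ := hX
    exact ⟨F, hF, hfin.subset (sdiff_subset_sdiff_left hY)⟩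
  union X hX Y hY := by
    classical
    obtain ⟨F, hF, hfin⟩ := hX
    obtain ⟨F', hF', hfin'⟩ := hY
    refine ⟨F ∪ F', fun a ha => ?_, (hfin.union hfin').subset ?_⟩
    · rcases Finset.mem_union.1 ha with h | h
      · exact hF a h
      · exact hF' a h
    · rintro x ⟨hx | hx, hx'⟩
      · left
        refine ⟨hx, fun hcon => hx' ?_⟩
        simp only [mem_iUnion] at hcon ⊢
        obtain ⟨a, ha, hxa⟩ := hcon
        exact ⟨a, Finset.mem_union_left _ ha, hxa⟩
      · right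
        refine ⟨hx, fun hcon => hx' ?_⟩
        simp only [mem_iUnion] at hcon ⊢
        obtain ⟨a, ha, hxa⟩ := hcon
        exact ⟨a, Finset.mem_union_right _ ha, hxa⟩
  proper := by
    rintro ⟨F, hF, hfin⟩
    refine hA F hF (hfin.subset fun x hx => ⟨mem_univ x, hx⟩)

lemma sleStar_le_pKStar {J : Set (Set ℕ)} : sleStar J ≤ pKStar J := by
  unfold pKStar
  refine le_iInf₂ fun A hA => ?_
  refine (iInf₂_le (gen A) (gen_isIdeal hA.1)).trans ?_
  unfold sle
  have h1 : (∀ s ∈ (fun (a : Set ℕ) (_ : ℕ) => a) '' A, ∀ n, s n ∈ gen A) ∧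
      ∀ x : ℕ → ℕ, ∃ s ∈ (fun (a : Set ℕ) (_ : ℕ) => a) '' A, {n : ℕ | x n ∈ s n} ∉ J := by
    constructor
    · rintro _ ⟨a, ha, rfl⟩ n
      refine ⟨{a}, by simpa using ha, ?_⟩
      simp
    · intro x
      by_contra hcon
      push Not at hcon
      exact hA.2 ⟨x, fun a ha => hcon _ ⟨a, ha, rfl⟩⟩
  exact (iInf₂_le ((fun (a : Set ℕ) (_ : ℕ) => a) '' A) h1).trans
    (WithTop.coe_le_coe.2 mk_image_le)

/-- If `κ ≤ 𝔠 < 2^κ` then `p_K(star, J) ≤ κ` for every ideal `J`. -/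
lemma pKStar_le {J : Set (Set ℕ)} (hJ : IsIdeal J) {κ : Cardinal.{0}} (hκ : κ ≤ 𝔠)
    (hc : 𝔠 < 2 ^ κ) : pKStar J ≤ (κ : WithTop Cardinal.{0}) := by
  classical
  have hout : #κ.out = κ := mk_out κ
  obtain ⟨e⟩ : Nonempty (κ.out ↪ (ℕ → Bool)) := by
    rw [← Cardinal.le_def, hout]
    simpa using hκ
  let b : κ.out → Set ℕ := fun i => {n | ind (e i) n = 0}
  let a : Set κ.out → κ.out → Set ℕ := fun S i => if i ∈ S then b i else (b i)ᶜ
  have hgen : ∀ S : Set κ.out, GeneratesIdeal (range (a S)) := by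
    intro S F hF hfin
    have h5 : ∀ c : Set ℕ, ∃ i : Option κ.out, c ∈ F → ∃ j, i = some j ∧ a S j = c := by
      intro c
      by_cases hc : c ∈ F
      · obtain ⟨f, hf⟩ := hF c hc
        exact ⟨some f, fun _ => ⟨f, rfl, hf⟩⟩
      · exact ⟨none, fun h => absurd h hc⟩
    choose g hg using h5
    refine ind_indep (((F.image g).eraseNone).map e)
      (fun z => if h : ∃ f, e f = z then (if h.choose ∈ S then 1 else 0) else 0)
      (hfin.subset fun n hn => ?_)
    simp only [mem_compl_iff, mem_iUnion, not_exists]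
    intro c hc hnc
    obtain ⟨j, hj, hac⟩ := hg c hc
    have hjm : j ∈ (F.image g).eraseNone := by
      rw [Finset.mem_eraseNone, ← hj]
      exact Finset.mem_image_of_mem _ hc
    have h6 := hn (e j) (Finset.mem_map_of_mem _ hjm)
    have hex : ∃ f, e f = e j := ⟨j, rfl⟩
    rw [dif_pos hex, e.injective hex.choose_spec] at h6
    rw [← hac] at hnc
    by_cases hig : j ∈ S
    · have h7 : n ∈ b j := by
        simpa [a, hig] using hnc
      have h8 : ind (e j) n = 0 := h7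
      rw [if_pos hig] at h6
      omega
    · have h7 : n ∉ b j := by
        simpa [a, hig] using hnc
      have h8 : ¬ ind (e j) n = 0 := h7
      rw [if_neg hig] at h6
      exact h8 h6
  obtain ⟨S, hS⟩ : ∃ S : Set κ.out, ¬ KatetovLE (range (a S)) J := by
    by_contra hcon
    push Not at hcon
    choose f hf using hcon
    have hinj : Function.Injective f := by
      intro S S' hSS
      by_contra hne
      have h7 : ∃ i, ¬ (i ∈ S ↔ i ∈ S') := by
        by_contra h8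
        push Not at h8
        exact hne (Set.ext h8)
      obtain ⟨i, hi⟩ := h7
      have h9 := hf S (a S i) ⟨i, rfl⟩
      have h10 := hf S' (a S' i) ⟨i, rfl⟩
      rw [← hSS] at h10
      have h11 := hJ.union _ h9 _ h10
      rw [← preimage_union] at h11
      have h12 : a S i ∪ a S' i = Set.univ := by
        by_cases h1 : i ∈ S
        · have h2 : i ∉ S' := fun h => hi ⟨fun _ => h, fun _ => h1⟩
          simp [a, h1, h2]
        · have h2 : i ∈ S' := by
            by_contra h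
            exact hi ⟨fun h' => absurd h' h1, fun h' => absurd h' h⟩
          simp [a, h1, h2]
      rw [h12, preimage_univ] at h11
      exact hJ.proper h11
    have h13 := Cardinal.mk_le_of_injective hinj
    rw [mk_set, hout] at h13
    have h14 : #(ℕ → ℕ) = 𝔠 := by simp
    rw [h14] at h13
    exact absurd hc (not_lt.2 h13)
  unfold pKStar
  refine (iInf₂_le (range (a S)) ⟨hgen S, hS⟩).trans (WithTop.coe_le_coe.2 ?_)
  exact mk_range_le.trans hout.le

/-- If `𝔠 < 2^𝔭`, then `sl_e(star, J) = p_K(star, J) = 𝔭` for every ideal `J`. -/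
theorem all_eq_p (hc : 𝔠 < 2 ^ pNumber) {J : Set (Set ℕ)} (hJ : IsIdeal J) :
    sleStar J = ((pNumber : Cardinal.{0}) : WithTop Cardinal.{0}) ∧
      pKStar J = ((pNumber : Cardinal.{0}) : WithTop Cardinal.{0}) := by
  have h1 := p_le_sleStar hJ
  have h2 : sleStar J ≤ pKStar J := sleStar_le_pKStar
  have h3 := pKStar_le hJ pNumber_le_continuum hc
  exact ⟨le_antisymm (h2.trans h3) h1, le_antisymm h3 (h1.trans h2)⟩

lemma inter_isIdeal {J₀ J₁ : Set (Set ℕ)} (h₀ : IsIdeal J₀) (h₁ : IsIdeal J₁) :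
    IsIdeal (J₀ ∩ J₁) where
  finite_mem F hF := ⟨h₀.finite_mem F hF, h₁.finite_mem F hF⟩
  down A hA B hB := ⟨h₀.down A hA.1 B hB, h₁.down A hA.2 B hB⟩
  union A hA B hB := ⟨h₀.union A hA.1 B hB.1, h₁.union A hA.2 B hB.2⟩
  proper h := h₀.proper h.1

lemma osum_isIdeal {J₀ J₁ : Set (Set ℕ)} (h₀ : IsIdeal J₀) (h₁ : IsIdeal J₁) :
    IsIdeal (osum J₀ J₁) where
  finite_mem F hF := by
    constructor
    · exact h₀.finite_mem _ (hF.preimage (fun a _ b _ hab => by
        have : 2 * a = 2 * b := hab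
        omega))
    · exact h₁.finite_mem _ (hF.preimage (f := fun n => 2 * n + 1) (fun a _ b _ hab => by
        have : 2 * a + 1 = 2 * b + 1 := hab
        omega))
  down A hA B hB := ⟨h₀.down _ hA.1 _ fun n hn => hB hn, h₁.down _ hA.2 _ fun n hn => hB hn⟩
  union A hA B hB := by
    refine ⟨?_, ?_⟩
    · exact h₀.down _ (h₀.union _ hA.1 _ hB.1) _ (fun n hn => hn)
    · exact h₁.down _ (h₁.union _ hA.2 _ hB.2) _ (fun n hn => hn)
  proper h := by
    exact h₀.proper (h₀.down _ h.1 _ fun n _ => Set.mem_univ _)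

/-- If `𝔭 = 𝔠`, then `sl_e(I, J) = 𝔠` for all ideals. -/
theorem all_eq_c (hc : pNumber = 𝔠) {I J : Set (Set ℕ)} (hI : IsIdeal I) (hJ : IsIdeal J) :
    sle I J = ((𝔠 : Cardinal.{0}) : WithTop Cardinal.{0}) :=
  le_antisymm (sle_le hI hJ) (hc ▸ p_le_sle hI hJ)

end Pool.Agent.V11254.Kat
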