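import Pool.Agent.V11254.Kat.PNum
import Pool.Agent.V11254.Kat.Hyp

/-!
# The recursion for (i) and (iii): triples, extensions, unions of chains
-/

set_option autoImplicit false

open Set Cardinal

namespace Pool.Agent.V11254.Kat

/-- The `n`-th section of a coded slalom. -/
def sec (s : Set ℕ) (n : ℕ) : Set ℕ := {k | Nat.pair n k ∈ s}

/-- The slalom attached to a set `a`. -/
def hs (a : Set ℕ) (n : ℕ) : Set ℕ := a ∪ Iic n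

def W2 (a U₀ U₁ : Set ℕ) : Set ℕ := {t | g1 t ∈ hs a (g0 t) → g0 t ∈ U₀ ∧ g0 t ∈ U₁}

def W3 (a U₀ U₁ s : Set ℕ) : Set ℕ :=
  {t | g1 (g1 t) ∈ hs a (g0 t) → g0 t ∈ U₁ ∧ (g0 t ∈ U₀ ∨ g0 (g1 t) ∈ sec s (g0 t))}

def Yop (R a : Set ℕ) : Set ℕ := {n | ∃ v ∈ hs a n, Nat.pair n v ∈ R}

/-- Closed families of sets. -/
structure Cl (F : Set ℕ → Set (Set ℕ)) (M : Set (Set ℕ)) : Prop where
  f : ∀ a ∈ M, F a ⊆ M
  compl : ∀ a ∈ M, aᶜ ∈ M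
  union : ∀ a ∈ M, ∀ b ∈ M, a ∪ b ∈ M
  w2 : ∀ a ∈ M, ∀ b ∈ M, ∀ c ∈ M, W2 a b c ∈ M
  w3 : ∀ a ∈ M, ∀ b ∈ M, ∀ c ∈ M, ∀ d ∈ M, W3 a b c d ∈ M
  yop : ∀ a ∈ M, ∀ b ∈ M, Yop a b ∈ M

/-- The reflection given by the weak Freese-Nation property. -/
lemma reflect {ι : Type} {F : Set ℕ → Set (Set ℕ)} (hF : WFN F) {M : Set (Set ℕ)}
    (hM : ∀ a ∈ M, F a ⊆ M) (r : Set ℕ) (W : ι → Set ℕ) {A : Set ι} (hA : ¬ A.Countable)
    (hW : ∀ i ∈ A, W i ∈ M ∧ r ⊆ W i) :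
    ∃ R ∈ M, r ⊆ R ∧ ¬ {i | i ∈ A ∧ R ⊆ W i}.Countable := by
  by_contra hcon
  push Not at hcon
  apply hA
  have h1 : A ⊆ ⋃ c ∈ F r ∩ {c | c ∈ M ∧ r ⊆ c}, {i | i ∈ A ∧ c ⊆ W i} := by
    intro i hi
    obtain ⟨c, hcr, hcW, hrc, hcWi⟩ := hF.2 r (W i) (hW i hi).2
    simp only [mem_iUnion]
    exact ⟨c, ⟨hcr, hM _ (hW i hi).1 hcW, hrc⟩, hi, hcWi⟩
  refine Countable.mono h1 (Countable.biUnion ((hF.1 r).mono inter_subset_left) ?_)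
  rintro c ⟨_, hcM, hrc⟩
  exact hcon c hcM hrc

/-- A triple: a family of sets and two ideals. -/
structure Tr where
  M : Set (Set ℕ)
  J : Bool → Set (Set ℕ)

/-- The hit set of a partial function. -/
def hitSet (a N : Set ℕ) (y : ℕ → ℕ) : Set ℕ := {n | n ∈ N ∧ y n ∈ hs a n}

structure Good {ι : Type} (F : Set ℕ → Set (Set ℕ)) (a : ι → Set ℕ) (T : Tr) : Prop where
  cl : Cl F T.M
  aM : ∀ i, a i ∈ T.M
  ideal : ∀ b, IsIdeal (T.J b)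
  cof : ∀ b, ∀ X ∈ T.J b, ∃ U ∈ T.J b, U ∈ T.M ∧ X ⊆ U
  join : ∀ U ∈ T.J false, ∀ V ∈ T.J true, U ∪ V ≠ Set.univ
  inv : ∀ (N : Set ℕ) (y : ℕ → ℕ),
    ¬ {i | hitSet (a i) N y ∈ T.J false ∧ hitSet (a i) N y ∈ T.J true}.Countable →
    ∃ U ∈ T.J false, ∃ V ∈ T.J true, N ⊆ U ∪ V

structure Ext (T T' : Tr) : Prop where
  M : T.M ⊆ T'.M
  J : ∀ b, T.J b ⊆ T'.J b
  cons : ∀ b, ∀ X ∈ T.M, X ∈ T'.J b → X ∈ T.J b

lemma Ext.refl (T : Tr) : Ext T T := ⟨subset_rfl, fun _ => subset_rfl, fun _ _ _ h => h⟩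

lemma Ext.trans {T T' T'' : Tr} (h : Ext T T') (h' : Ext T' T'') : Ext T T'' :=
  ⟨h.M.trans h'.M, fun b => (h.J b).trans (h'.J b),
    fun b X hX hX' => h.cons b X hX (h'.cons b X (h.M hX) hX')⟩

/-- The union of a family of triples. -/
def iUnionTr {D : Type} (T : D → Tr) : Tr := ⟨⋃ d, (T d).M, fun b => ⋃ d, (T d).J b⟩

lemma ext_iUnion {D : Type} {T : D → Tr} (htot : ∀ d e, Ext (T d) (T e) ∨ Ext (T e) (T d)) (d : D) :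
    Ext (T d) (iUnionTr T) := by
  refine ⟨subset_iUnion (fun d => (T d).M) d, fun b => subset_iUnion (fun d => (T d).J b) d,
    fun b X hX hX' => ?_⟩
  obtain ⟨e, he⟩ := mem_iUnion.1 hX'
  rcases htot d e with h | h
  · exact h.cons b X hX he
  · exact h.J b he

lemma good_iUnion {ι : Type} {F : Set ℕ → Set (Set ℕ)} (hF : WFN F) {a : ι → Set ℕ} {D : Type}
    [Nonempty D] {T : D → Tr} (htot : ∀ d e, Ext (T d) (T e) ∨ Ext (T e) (T d))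
    (hgood : ∀ d, Good F a (T d)) : Good F a (iUnionTr T) := by
  have hdir : ∀ d e, ∃ c, ((T d).M ⊆ (T c).M ∧ (T e).M ⊆ (T c).M) ∧
      ∀ b, (T d).J b ⊆ (T c).J b ∧ (T e).J b ⊆ (T c).J b := by
    intro d e
    rcases htot d e with h | h
    · exact ⟨e, ⟨h.M, subset_rfl⟩, fun b => ⟨h.J b, subset_rfl⟩⟩
    · exact ⟨d, ⟨subset_rfl, h.M⟩, fun b => ⟨subset_rfl, h.J b⟩⟩
  have hM : ∀ {X : Set ℕ}, X ∈ (iUnionTr T).M ↔ ∃ d, X ∈ (T d).M := fun {X} => mem_iUnion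
  have hJ : ∀ {b : Bool} {X : Set ℕ}, X ∈ (iUnionTr T).J b ↔ ∃ d, X ∈ (T d).J b :=
    fun {b X} => mem_iUnion
  have h2 : ∀ X ∈ (iUnionTr T).M, ∀ Y ∈ (iUnionTr T).M, ∃ d, X ∈ (T d).M ∧ Y ∈ (T d).M := by
    intro X hX Y hY
    obtain ⟨d, hd⟩ := hM.1 hX
    obtain ⟨e, he⟩ := hM.1 hY
    obtain ⟨c, ⟨hc1, hc2⟩, _⟩ := hdir d e
    exact ⟨c, hc1 hd, hc2 he⟩
  have h4 : ∀ X ∈ (iUnionTr T).M, ∀ Y ∈ (iUnionTr T).M, ∀ Z ∈ (iUnionTr T).M,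
      ∀ W ∈ (iUnionTr T).M, ∃ d, X ∈ (T d).M ∧ Y ∈ (T d).M ∧ Z ∈ (T d).M ∧ W ∈ (T d).M := by
    intro X hX Y hY Z hZ W hW
    obtain ⟨d, hd1, hd2⟩ := h2 X hX Y hY
    obtain ⟨e, he1, he2⟩ := h2 Z hZ W hW
    obtain ⟨c, ⟨hc1, hc2⟩, _⟩ := hdir d e
    exact ⟨c, hc1 hd1, hc1 hd2, hc2 he1, hc2 he2⟩
  have hcl : Cl F (iUnionTr T).M := by
    refine ⟨?_, ?_, ?_, ?_, ?_, ?_⟩
    · intro X hX Y hY
      obtain ⟨d, hd⟩ := hM.1 hX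
      exact hM.2 ⟨d, (hgood d).cl.f X hd hY⟩
    · intro X hX
      obtain ⟨d, hd⟩ := hM.1 hX
      exact hM.2 ⟨d, (hgood d).cl.compl X hd⟩
    · intro X hX Y hY
      obtain ⟨d, hd, he⟩ := h2 X hX Y hY
      exact hM.2 ⟨d, (hgood d).cl.union X hd Y he⟩
    · intro X hX Y hY Z hZ
      obtain ⟨d, hd, he, hf, _⟩ := h4 X hX Y hY Z hZ Z hZ
      exact hM.2 ⟨d, (hgood d).cl.w2 X hd Y he Z hf⟩
    · intro X hX Y hY Z hZ W hW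
      obtain ⟨d, hd, he, hf, hg⟩ := h4 X hX Y hY Z hZ W hW
      exact hM.2 ⟨d, (hgood d).cl.w3 X hd Y he Z hf W hg⟩
    · intro X hX Y hY
      obtain ⟨d, hd, he⟩ := h2 X hX Y hY
      exact hM.2 ⟨d, (hgood d).cl.yop X hd Y he⟩
  have hid : ∀ b, IsIdeal ((iUnionTr T).J b) := by
    intro b
    refine ⟨?_, ?_, ?_, ?_⟩
    · intro X hX
      exact hJ.2 ⟨Classical.arbitrary D, ((hgood _).ideal b).finite_mem X hX⟩
    · intro X hX Y hY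
      obtain ⟨d, hd⟩ := hJ.1 hX
      exact hJ.2 ⟨d, ((hgood d).ideal b).down X hd Y hY⟩
    · intro X hX Y hY
      obtain ⟨d, hd⟩ := hJ.1 hX
      obtain ⟨e, he⟩ := hJ.1 hY
      obtain ⟨c, _, hc⟩ := hdir d e
      exact hJ.2 ⟨c, ((hgood c).ideal b).union X ((hc b).1 hd) Y ((hc b).2 he)⟩
    · intro h
      obtain ⟨d, hd⟩ := hJ.1 h
      exact ((hgood d).ideal b).proper hd
  have hcof : ∀ b, ∀ X ∈ (iUnionTr T).J b, ∃ U ∈ (iUnionTr T).J b, U ∈ (iUnionTr T).M ∧ X ⊆ U := by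
    intro b X hX
    obtain ⟨d, hd⟩ := hJ.1 hX
    obtain ⟨U, hU, hUM, hXU⟩ := (hgood d).cof b X hd
    exact ⟨U, hJ.2 ⟨d, hU⟩, hM.2 ⟨d, hUM⟩, hXU⟩
  refine ⟨hcl, fun i => hM.2 ⟨Classical.arbitrary D, (hgood _).aM i⟩, hid, hcof, ?_, ?_⟩
  · intro U hU V hV
    obtain ⟨d, hd⟩ := hJ.1 hU
    obtain ⟨e, he⟩ := hJ.1 hV
    obtain ⟨c, _, hc⟩ := hdir d e
    exact (hgood c).join U ((hc false).1 hd) V ((hc true).2 he)
  · intro N y hunc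
    -- choose covers
    have hcov : ∀ i, ∃ U₀ U₁ : Set ℕ, (hitSet (a i) N y ∈ (iUnionTr T).J false ∧
        hitSet (a i) N y ∈ (iUnionTr T).J true) →
        (U₀ ∈ (iUnionTr T).J false ∧ U₀ ∈ (iUnionTr T).M ∧ hitSet (a i) N y ⊆ U₀) ∧
        (U₁ ∈ (iUnionTr T).J true ∧ U₁ ∈ (iUnionTr T).M ∧ hitSet (a i) N y ⊆ U₁) := by
      intro i
      by_cases h : hitSet (a i) N y ∈ (iUnionTr T).J false ∧ hitSet (a i) N y ∈ (iUnionTr T).J true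
      · obtain ⟨U₀, h1, h1', h1''⟩ := hcof false _ h.1
        obtain ⟨U₁, h3, h3', h3''⟩ := hcof true _ h.2
        exact ⟨U₀, U₁, fun _ => ⟨⟨h1, h1', h1''⟩, ⟨h3, h3', h3''⟩⟩⟩
      · exact ⟨∅, ∅, fun h' => absurd h' h⟩
    choose U₀ U₁ hU using hcov
    have haM : ∀ i, a i ∈ (iUnionTr T).M :=
      fun i => hM.2 ⟨Classical.arbitrary D, (hgood _).aM i⟩
    obtain ⟨R, hRM, hrR, hRunc⟩ := reflect hF hcl.f {t | g0 t ∈ N ∧ g1 t = y (g0 t)}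
      (fun i => W2 (a i) (U₀ i) (U₁ i)) hunc (fun i hi => by
        obtain ⟨⟨h1, h1', h1''⟩, ⟨h3, h3', h3''⟩⟩ := hU i hi
        refine ⟨hcl.w2 _ (haM i) _ h1' _ h3', ?_⟩
        rintro t ⟨htN, hty⟩ hta
        rw [hty] at hta
        exact ⟨h1'' ⟨htN, hta⟩, h3'' ⟨htN, hta⟩⟩)
    obtain ⟨d, hRd⟩ := hM.1 hRM
    -- the reflected partial function
    have hch : ∀ n, ∃ v, n ∈ N → Nat.pair n v ∈ R := by
      intro n
      refine ⟨y n, fun hn => hrR ?_⟩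
      simp only [mem_ofPred_eq, g0, g1, Nat.unpair_pair]
      exact ⟨hn, trivial⟩
    choose z hz using hch
    obtain ⟨U, hU', V, hV', hNUV⟩ := (hgood d).inv N z (by
      intro hcount
      apply hRunc
      refine hcount.mono ?_
      rintro i ⟨hi, hRi⟩
      obtain ⟨⟨h1, h1', h1''⟩, ⟨h3, h3', h3''⟩⟩ := hU i hi
      have hY : Yop R (a i) ∈ (T d).M := (hgood d).cl.yop R hRd _ ((hgood d).aM i)
      have hYsub : Yop R (a i) ⊆ U₀ i ∩ U₁ i := by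
        rintro n ⟨v, hv, hnv⟩
        have h5 := hRi hnv
        simp only [W2, mem_ofPred_eq, g0, g1, Nat.unpair_pair] at h5
        exact h5 hv
      have hYJ : ∀ b, Yop R (a i) ∈ (T d).J b := by
        intro b
        refine (ext_iUnion htot d).cons b _ hY ?_
        cases b
        · exact (hid false).down _ h1 _ (hYsub.trans inter_subset_left)
        · exact (hid true).down _ h3 _ (hYsub.trans inter_subset_right)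
      have hsub : hitSet (a i) N z ⊆ Yop R (a i) := by
        rintro n ⟨hnN, hn⟩
        exact ⟨z n, hn, hz n hnN⟩
      exact ⟨((hgood d).ideal false).down _ (hYJ false) _ hsub,
        ((hgood d).ideal true).down _ (hYJ true) _ hsub⟩)
    exact ⟨U, hJ.2 ⟨d, hU'⟩, V, hJ.2 ⟨d, hV'⟩, hNUV⟩

end Pool.Agent.V11254.Kat
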