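import Pool.Agent.V11254.Kat.Rec1

/-!
# The successor step
-/

set_option autoImplicit false

open Set Cardinal

namespace Pool.Agent.V11254.Kat

def Eset (R : Set ℕ) : Set ℕ := {t | ∃ v, Nat.pair (g0 t) (Nat.pair (g1 t) v) ∈ R}

def SlOp (I : Set (Set ℕ)) (R : Set ℕ) : Set ℕ :=
  {t | t ∈ Eset R ∧ sec (Eset R) (g0 t) ∈ I}

lemma sec_slop_mem {I : Set (Set ℕ)} (hI : IsIdeal I) (R : Set ℕ) (n : ℕ) :
    sec (SlOp I R) n ∈ I := by
  by_cases h : sec (Eset R) n ∈ I
  · refine hI.down _ h _ ?_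
    intro k hk
    exact hk.1
  · have : sec (SlOp I R) n = ∅ := by
      ext k
      simp only [mem_empty_iff_false, iff_false]
      intro hk
      have h2 : sec (Eset R) (g0 (Nat.pair n k)) ∈ I := hk.2
      simp only [g0, Nat.unpair_pair] at h2
      exact h h2
    rw [this]
    exact hI.finite_mem _ finite_empty

/-- The section function of a generic function. -/
def caught (x : ℕ → ℕ) (s : Set ℕ) : Set ℕ := {n | x n ∈ sec s n}

/-- The ideal obtained by adding the sets caught by slaloms in `M'` with sections in `I`. -/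
def newJ (J : Set (Set ℕ)) (M' I : Set (Set ℕ)) (x : ℕ → ℕ) : Set (Set ℕ) :=
  {X | ∃ U ∈ J, ∃ s ∈ M', (∀ n, sec s n ∈ I) ∧ X ⊆ U ∪ caught x s}

/-- Genericity of `x` over `M'`. -/
def Generic (M' I : Set (Set ℕ)) (x : ℕ → ℕ) : Prop :=
  ∀ Y ∈ M', Y.Infinite → ∀ s ∈ M', (∀ n, sec s n ∈ I) → {n | n ∈ Y ∧ x n ∉ sec s n}.Infinite

lemma finite_union_mem {I : Set (Set ℕ)} (hI : IsIdeal I) {P : Set ℕ} (hP : P.Finite)
    (f : ℕ → Set ℕ) (hf : ∀ v ∈ P, f v ∈ I) : (⋃ v ∈ P, f v) ∈ I := by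
  classical
  induction P, hP using Set.Finite.induction_on with
  | empty => simpa using hI.finite_mem ∅ finite_empty
  | insert _ _ ih =>
    rw [biUnion_insert]
    exact hI.union _ (hf _ (mem_insert _ _)) _ (ih fun v hv => hf v (mem_insert_of_mem _ hv))

/-- The Luzin property of the family `a`. -/
def LuzinFam {ι : Type} (a : ι → Set ℕ) : Prop :=
  ∀ B : ℕ → Set ℕ, (∀ m, (B m).Infinite) → {i | ¬ ∀ m, (a i ∩ B m).Nonempty}.Countable

lemma successor {ι : Type} {F : Set ℕ → Set (Set ℕ)} (hF : WFN F) {a : ι → Set ℕ} [Nonempty ι]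
    (hL : LuzinFam a) {T : Tr} (hT : Good F a T) {M' : Set (Set ℕ)} (hTM : T.M ⊆ M')
    (hM' : Cl F M') {I : Set (Set ℕ)} (hI : IsIdeal I) (hSl : ∀ R ∈ M', SlOp I R ∈ M')
    {x : ℕ → ℕ} (hx : Generic M' I x) {M'' : Set (Set ℕ)} (hM'' : Cl F M'') (hMM : M' ⊆ M'')
    (hcaught : ∀ s ∈ M', caught x s ∈ M'') :
    Good F a ⟨M'', fun b => if b = true then T.J true else newJ (T.J false) M' I x⟩ ∧
    Ext T ⟨M'', fun b => if b = true then T.J true else newJ (T.J false) M' I x⟩ := by
  classical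
  set J' : Bool → Set (Set ℕ) := fun b => if b = true then T.J true else newJ (T.J false) M' I x
    with hJ'
  have hJt : J' true = T.J true := by simp [hJ']
  have hJf : J' false = newJ (T.J false) M' I x := by simp [hJ']
  obtain ⟨i₀⟩ := ‹Nonempty ι›
  -- a slalom in `M'`
  have hs₀ : SlOp I (a i₀) ∈ M' := hSl _ (hTM (hT.aM i₀))
  have hs₀' : ∀ n, sec (SlOp I (a i₀)) n ∈ I := fun n => sec_slop_mem hI _ n
  -- covers from `T.M`
  have hcov : ∀ X ∈ newJ (T.J false) M' I x, ∃ U ∈ T.J false, U ∈ T.M ∧ ∃ s ∈ M',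
      (∀ n, sec s n ∈ I) ∧ X ⊆ U ∪ caught x s := by
    rintro X ⟨U, hU, s, hs, hsI, hX⟩
    obtain ⟨U', hU', hU'M, hUU'⟩ := hT.cof false U hU
    exact ⟨U', hU', hU'M, s, hs, hsI, hX.trans (union_subset_union_left _ hUU')⟩
  have hdiffM : ∀ X ∈ M', ∀ U ∈ M', X \ U ∈ M' := by
    intro X hX U hU
    have : X \ U = (Xᶜ ∪ U)ᶜ := by
      rw [compl_union, compl_compl, sdiff_eq]
    rw [this]
    exact hM'.compl _ (hM'.union _ (hM'.compl _ hX) _ hU)
  have hJle : T.J false ⊆ newJ (T.J false) M' I x := fun X hX =>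
    ⟨X, hX, _, hs₀, hs₀', subset_union_left⟩
  -- the join
  have hjoin : ∀ U ∈ newJ (T.J false) M' I x, ∀ V ∈ T.J true, U ∪ V ≠ Set.univ := by
    intro U hU V hV huniv
    obtain ⟨U₀, hU₀, hU₀M, s, hs, hsI, hUs⟩ := hcov U hU
    obtain ⟨V₀, hV₀, hV₀M, hVV⟩ := hT.cof true V hV
    have hY : (U₀ ∪ V₀)ᶜ ∈ M' := hM'.compl _ (hM'.union _ (hTM hU₀M) _ (hTM hV₀M))
    have hYinf : ((U₀ ∪ V₀)ᶜ : Set ℕ).Infinite := by
      intro hfin
      refine hT.join U₀ hU₀ (V₀ ∪ (U₀ ∪ V₀)ᶜ)
        ((hT.ideal true).union _ hV₀ _ ((hT.ideal true).finite_mem _ hfin)) ?_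
      rw [← union_assoc, union_compl_self]
    obtain ⟨n, hnY, hn⟩ := (hx _ hY hYinf s hs hsI).nonempty
    have hnUV : n ∈ U ∪ V := huniv ▸ mem_univ n
    rcases hnUV with h | h
    · rcases hUs h with h' | h'
      · exact hnY (Or.inl h')
      · exact hn h'
    · exact hnY (Or.inr (hVV h))
  have hnewid : IsIdeal (newJ (T.J false) M' I x) := by
    refine ⟨?_, ?_, ?_, ?_⟩
    · intro X hX
      exact hJle ((hT.ideal false).finite_mem X hX)
    · rintro X ⟨U, hU, s, hs, hsI, hX⟩ Y hY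
      exact ⟨U, hU, s, hs, hsI, hY.trans hX⟩
    · rintro X ⟨U, hU, s, hs, hsI, hX⟩ Y ⟨U', hU', s', hs', hsI', hY⟩
      refine ⟨U ∪ U', (hT.ideal false).union _ hU _ hU', s ∪ s', hM'.union _ hs _ hs',
        fun n => hI.union _ (hsI n) _ (hsI' n), ?_⟩
      rintro n (hn | hn)
      · rcases hX hn with h | h
        · exact Or.inl (Or.inl h)
        · exact Or.inr (Or.inl h)
      · rcases hY hn with h | h
        · exact Or.inl (Or.inr h)
        · exact Or.inr (Or.inr h)
    · intro h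
      exact hjoin _ h ∅ ((hT.ideal true).finite_mem _ finite_empty) (univ_union _)
  constructor
  · refine ⟨hM'', fun i => hMM (hTM (hT.aM i)), ?_, ?_, ?_, ?_⟩
    · intro b
      cases b
      · change IsIdeal (J' false)
        rw [hJf]
        exact hnewid
      · change IsIdeal (J' true)
        rw [hJt]
        exact hT.ideal true
    · intro b
      cases b
      · change ∀ X ∈ J' false, ∃ U ∈ J' false, U ∈ M'' ∧ X ⊆ U
        rw [hJf]
        intro X hX
        obtain ⟨U, hU, hUM, s, hs, hsI, hXs⟩ := hcov X hX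
        exact ⟨U ∪ caught x s, ⟨U, hU, s, hs, hsI, subset_rfl⟩,
          hM''.union _ (hMM (hTM hUM)) _ (hcaught s hs), hXs⟩
      · change ∀ X ∈ J' true, ∃ U ∈ J' true, U ∈ M'' ∧ X ⊆ U
        rw [hJt]
        intro X hX
        obtain ⟨U, hU, hUM, hXU⟩ := hT.cof true X hX
        exact ⟨U, hU, hMM (hTM hUM), hXU⟩
    · change ∀ U ∈ J' false, ∀ V ∈ J' true, U ∪ V ≠ Set.univ
      rw [hJf, hJt]
      exact hjoin
    · change ∀ (N : Set ℕ) (y : ℕ → ℕ),
        ¬ {i | hitSet (a i) N y ∈ J' false ∧ hitSet (a i) N y ∈ J' true}.Countable →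
        ∃ U ∈ J' false, ∃ V ∈ J' true, N ⊆ U ∪ V
      rw [hJf, hJt]
      intro N y hunc
      -- covers
      have hcov2 : ∀ i, ∃ U₀ s U₁ : Set ℕ, (hitSet (a i) N y ∈ newJ (T.J false) M' I x ∧
          hitSet (a i) N y ∈ T.J true) →
          (U₀ ∈ T.J false ∧ U₀ ∈ M' ∧ s ∈ M' ∧ (∀ n, sec s n ∈ I) ∧
            hitSet (a i) N y ⊆ U₀ ∪ caught x s) ∧
          (U₁ ∈ T.J true ∧ U₁ ∈ M' ∧ hitSet (a i) N y ⊆ U₁) := by
        intro i
        by_cases h : hitSet (a i) N y ∈ newJ (T.J false) M' I x ∧ hitSet (a i) N y ∈ T.J true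
        · obtain ⟨U₀, h1, h2, s, h3, h4, h5⟩ := hcov _ h.1
          obtain ⟨U₁, h6, h7, h8⟩ := hT.cof true _ h.2
          exact ⟨U₀, s, U₁, fun _ => ⟨⟨h1, hTM h2, h3, h4, h5⟩, ⟨h6, hTM h7, h8⟩⟩⟩
        · exact ⟨∅, ∅, ∅, fun h' => absurd h' h⟩
      choose U₀ s U₁ hU using hcov2
      obtain ⟨R, hRM, hrR, hRunc⟩ := reflect hF hM'.f
        {t | g0 t ∈ N ∧ g0 (g1 t) = x (g0 t) ∧ g1 (g1 t) = y (g0 t)}
        (fun i => W3 (a i) (U₀ i) (U₁ i) (s i)) hunc (fun i hi => by
          obtain ⟨⟨h1, h2, h3, h4, h5⟩, ⟨h6, h7, h8⟩⟩ := hU i hi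
          refine ⟨hM'.w3 _ (hTM (hT.aM i)) _ h2 _ h7 _ h3, ?_⟩
          rintro t ⟨htN, htx, hty⟩ hta
          rw [hty] at hta
          refine ⟨h8 ⟨htN, hta⟩, ?_⟩
          rcases h5 ⟨htN, hta⟩ with h | h
          · exact Or.inl h
          · right
            rw [htx]
            exact h)
      have hmemR : ∀ n ∈ N, Nat.pair n (Nat.pair (x n) (y n)) ∈ R := by
        intro n hn
        apply hrR
        simp only [mem_ofPred_eq, g0, g1, Nat.unpair_pair]
        exact ⟨hn, trivial, trivial⟩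
      have hW3 : ∀ i, R ⊆ W3 (a i) (U₀ i) (U₁ i) (s i) → ∀ n k v, Nat.pair n (Nat.pair k v) ∈ R →
          v ∈ hs (a i) n → n ∈ U₁ i ∧ (n ∈ U₀ i ∨ k ∈ sec (s i) n) := by
        intro i hi n k v hnkv hv
        have h1 := hi hnkv
        simp only [W3, mem_ofPred_eq, g0, g1, Nat.unpair_pair] at h1
        exact h1 hv
      have hE : ∀ n, sec (Eset R) n = {k | ∃ v, Nat.pair n (Nat.pair k v) ∈ R} := by
        intro n
        ext k
        simp only [sec, Eset, mem_ofPred_eq, g0, g1, Nat.unpair_pair]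
      -- part a
      have hXa : caught x (SlOp I R) ∈ newJ (T.J false) M' I x :=
        ⟨∅, (hT.ideal false).finite_mem _ finite_empty, SlOp I R, hSl R hRM,
          fun n => sec_slop_mem hI R n, subset_union_right⟩
      have hNa : ∀ n ∈ N, sec (Eset R) n ∈ I → n ∈ caught x (SlOp I R) := by
        intro n hn hnI
        change Nat.pair n (x n) ∈ SlOp I R
        refine ⟨?_, ?_⟩
        · change x n ∈ sec (Eset R) n
          rw [hE]
          exact ⟨y n, hmemR n hn⟩
        · simp only [g0, Nat.unpair_pair]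
          exact hnI
      -- part b
      let P : ℕ → Set ℕ := fun n => {v | ∃ k, Nat.pair n (Nat.pair k v) ∈ R}
      have hNb : ∃ V ∈ T.J true, ∀ n, (P n).Infinite → n ∈ V := by
        have h1 := hL (fun n => if (P n).Infinite then P n else Set.univ) (fun n => by
          by_cases h : (P n).Infinite
          · simp only [h, if_true]
          · simp only [h, if_false]
            exact infinite_univ)
        obtain ⟨i, hi, hi'⟩ : ∃ i, (i ∈ {i | hitSet (a i) N y ∈ newJ (T.J false) M' I x ∧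
            hitSet (a i) N y ∈ T.J true} ∧ R ⊆ W3 (a i) (U₀ i) (U₁ i) (s i)) ∧
            ∀ m, (a i ∩ (if (P m).Infinite then P m else Set.univ)).Nonempty := by
          by_contra hcon
          push Not at hcon
          refine hRunc (h1.mono ?_)
          intro i hi hall
          obtain ⟨m, hm⟩ := hcon i hi
          exact (hall m).ne_empty hm
        refine ⟨U₁ i, (hU i hi.1).2.1, fun n hn => ?_⟩
        obtain ⟨v, hva, hvP⟩ := hi' n
        rw [if_pos hn] at hvP
        obtain ⟨k, hk⟩ := hvP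
        exact (hW3 i hi.2 n k v hk (Or.inl hva)).1
      -- part c
      have hNc : ∃ U ∈ T.J false, ∃ V ∈ T.J true,
          {n | sec (Eset R) n ∉ I ∧ ¬ (P n).Infinite} ⊆ U ∪ V := by
        have h1 : ∀ n, ∃ v, (sec (Eset R) n ∉ I ∧ ¬ (P n).Infinite) →
            {k | Nat.pair n (Nat.pair k v) ∈ R} ∉ I := by
          intro n
          by_cases h : sec (Eset R) n ∉ I ∧ ¬ (P n).Infinite
          · by_contra hcon
            push Not at hcon
            have h2 := finite_union_mem hI (not_infinite.1 h.2)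
              (fun v => {k | Nat.pair n (Nat.pair k v) ∈ R}) (fun v _ => (hcon v).2)
            refine h.1 (hI.down _ h2 _ ?_)
            rw [hE]
            rintro k ⟨v, hv⟩
            simp only [mem_iUnion]
            exact ⟨v, ⟨k, hv⟩, hv⟩
          · exact ⟨0, fun h' => absurd h' h⟩
        choose z hz using h1
        refine hT.inv {n | sec (Eset R) n ∉ I ∧ ¬ (P n).Infinite} z ?_
        intro hcount
        refine hRunc (hcount.mono ?_)
        rintro i ⟨hi, hRi⟩
        obtain ⟨⟨h1, h2, h3, h4, h5⟩, ⟨h6, h7, h8⟩⟩ := hU i hi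
        have hsub : hitSet (a i) {n | sec (Eset R) n ∉ I ∧ ¬ (P n).Infinite} z ⊆ U₀ i ∩ U₁ i := by
          rintro n ⟨hn, hzn⟩
          have h9 := hz n hn
          obtain ⟨k, hk, hks⟩ : ∃ k, Nat.pair n (Nat.pair k (z n)) ∈ R ∧ k ∉ sec (s i) n := by
            by_contra hcon
            push Not at hcon
            exact h9 (hI.down _ (h4 n) _ hcon)
          obtain ⟨h10, h11⟩ := hW3 i hRi n k (z n) hk hzn
          rcases h11 with h | h
          · exact ⟨h, h10⟩
          · exact absurd h hks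
        exact ⟨(hT.ideal false).down _ h1 _ (hsub.trans inter_subset_left),
          (hT.ideal true).down _ h6 _ (hsub.trans inter_subset_right)⟩
      obtain ⟨V, hV, hVP⟩ := hNb
      obtain ⟨U', hU', V', hV', hUV'⟩ := hNc
      refine ⟨caught x (SlOp I R) ∪ U', hnewid.union _ hXa _ (hJle hU'), V ∪ V',
        (hT.ideal true).union _ hV _ hV', ?_⟩
      intro n hn
      by_cases h1 : sec (Eset R) n ∈ I
      · exact Or.inl (Or.inl (hNa n hn h1))
      · by_cases h2 : (P n).Infinite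
        · exact Or.inr (Or.inl (hVP n h2))
        · rcases hUV' ⟨h1, h2⟩ with h | h
          · exact Or.inl (Or.inr h)
          · exact Or.inr (Or.inr h)
  · refine ⟨hTM.trans hMM, ?_, ?_⟩
    · intro b
      cases b
      · change T.J false ⊆ J' false
        rw [hJf]
        exact hJle
      · change T.J true ⊆ J' true
        rw [hJt]
    · intro b
      cases b
      · change ∀ X ∈ T.M, X ∈ J' false → X ∈ T.J false
        rw [hJf]
        intro X hXM hX
        obtain ⟨U, hU, hUM, s, hs, hsI, hXs⟩ := hcov X hX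
        have hY : X \ U ∈ M' := hdiffM X (hTM hXM) U (hTM hUM)
        have hfin : (X \ U).Finite := by
          by_contra hinf
          obtain ⟨n, hnY, hn⟩ := (hx _ hY hinf s hs hsI).nonempty
          rcases hXs hnY.1 with h | h
          · exact hnY.2 h
          · exact hn h
        refine (hT.ideal false).down _ ((hT.ideal false).union _ hU _
          ((hT.ideal false).finite_mem _ hfin)) _ ?_
        intro n hn
        by_cases h : n ∈ U
        · exact Or.inl h
        · exact Or.inr ⟨hn, h⟩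
      · change ∀ X ∈ T.M, X ∈ J' true → X ∈ T.J true
        rw [hJt]
        intro X _ hX
        exact hX

end Pool.Agent.V11254.Kat
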