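import Pool.Agent.V11254.Kat.Rec2

/-!
# Closures, generic functions, the Luzin family, the base triple and the step
-/

set_option autoImplicit false

open Set Cardinal

namespace Pool.Agent.V11254.Kat

lemma card_iUnion_le {α ι : Type} (f : ι → Set α) (hι : #ι ≤ ℵ₁) (hf : ∀ i, #(f i) ≤ ℵ₁) :
    #(⋃ i, f i) ≤ (ℵ₁ : Cardinal.{0}) := by
  refine (mk_iUnion_le f).trans ?_
  calc #ι * ⨆ i, #(f i) ≤ ℵ₁ * ℵ₁ := mul_le_mul' hι (ciSup_le' hf)
    _ = ℵ₁ := mul_eq_self (aleph0_le_aleph 1)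

lemma card_prod_le {α β : Type} (h : #α ≤ (ℵ₁ : Cardinal.{0})) (h' : #β ≤ (ℵ₁ : Cardinal.{0})) :
    #(α × β) ≤ (ℵ₁ : Cardinal.{0}) := by
  rw [mk_prod, lift_id, lift_id]
  calc #α * #β ≤ ℵ₁ * ℵ₁ := mul_le_mul' h h'
    _ = ℵ₁ := mul_eq_self (aleph0_le_aleph 1)

lemma card_countable_le {α : Type} {s : Set α} (h : s.Countable) : #s ≤ (ℵ₁ : Cardinal.{0}) :=
  (Cardinal.mk_le_aleph0_iff.2 h).trans (aleph0_le_aleph 1)

/-- The outputs of the operations. -/
def opSet (F : Set ℕ → Set (Set ℕ)) (g : Set ℕ → Set ℕ)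
    (q : Set ℕ × Set ℕ × Set ℕ × Set ℕ) : Set (Set ℕ) :=
  F q.1 ∪ {q.1ᶜ, q.1 ∪ q.2.1, W2 q.1 q.2.1 q.2.2.1, W3 q.1 q.2.1 q.2.2.1 q.2.2.2,
    Yop q.1 q.2.1, g q.1}

/-- One step of the closure. -/
def opStep (F : Set ℕ → Set (Set ℕ)) (g : Set ℕ → Set ℕ) (Z : Set (Set ℕ)) : Set (Set ℕ) :=
  Z ∪ ⋃ q : Z × Z × Z × Z, opSet F g (q.1.1, q.2.1.1, q.2.2.1.1, q.2.2.2.1)

lemma exists_closure {F : Set ℕ → Set (Set ℕ)} (hF : ∀ a, (F a).Countable) (g : Set ℕ → Set ℕ)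
    {Z : Set (Set ℕ)} (hZ : #Z ≤ (ℵ₁ : Cardinal.{0})) (hne : Z.Nonempty) :
    ∃ M : Set (Set ℕ), Z ⊆ M ∧ #M ≤ (ℵ₁ : Cardinal.{0}) ∧ Cl F M ∧ ∀ R ∈ M, g R ∈ M := by
  classical
  let Zn : ℕ → Set (Set ℕ) := fun n => (opStep F g)^[n] Z
  have hsucc : ∀ n, Zn (n + 1) = opStep F g (Zn n) := fun n => Function.iterate_succ_apply' _ _ _
  have hmono : ∀ n, Zn n ⊆ Zn (n + 1) := fun n => by
    rw [hsucc]
    exact subset_union_left
  have hmono' : Monotone Zn := monotone_nat_of_le_succ hmono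
  have hcard : ∀ n, #(Zn n) ≤ (ℵ₁ : Cardinal.{0}) := by
    intro n
    induction n with
    | zero => exact hZ
    | succ n ih =>
      rw [hsucc]
      refine (mk_union_le _ _).trans ?_
      refine add_le_of_le (aleph0_le_aleph 1) ih ?_
      refine card_iUnion_le _ (card_prod_le ih (card_prod_le ih (card_prod_le ih ih))) ?_
      intro q
      refine card_countable_le ?_
      refine (hF _).union ?_
      exact (Set.toFinite _).countable
  have hmem : ∀ {X : Set ℕ}, X ∈ (⋃ n, Zn n) ↔ ∃ n, X ∈ Zn n := fun {X} => mem_iUnion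
  have hop : ∀ a ∈ (⋃ n, Zn n), ∀ b ∈ (⋃ n, Zn n), ∀ c ∈ (⋃ n, Zn n), ∀ d ∈ (⋃ n, Zn n),
      opSet F g (a, b, c, d) ⊆ ⋃ n, Zn n := by
    intro a ha b hb c hc d hd
    obtain ⟨na, ha⟩ := hmem.1 ha
    obtain ⟨nb, hb⟩ := hmem.1 hb
    obtain ⟨nc, hc⟩ := hmem.1 hc
    obtain ⟨nd, hd⟩ := hmem.1 hd
    let N := max (max na nb) (max nc nd)
    have ha' : a ∈ Zn N := hmono' (by omega) ha
    have hb' : b ∈ Zn N := hmono' (by omega) hb
    have hc' : c ∈ Zn N := hmono' (by omega) hc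
    have hd' : d ∈ Zn N := hmono' (by omega) hd
    intro X hX
    refine hmem.2 ⟨N + 1, ?_⟩
    rw [hsucc]
    right
    exact mem_iUnion.2 ⟨(⟨a, ha'⟩, ⟨b, hb'⟩, ⟨c, hc'⟩, ⟨d, hd'⟩), hX⟩
  refine ⟨⋃ n, Zn n, subset_iUnion Zn 0, ?_, ?_, ?_⟩
  · exact card_iUnion_le _ (by simp) hcard
  · refine ⟨?_, ?_, ?_, ?_, ?_, ?_⟩
    · intro a ha X hX
      exact hop a ha a ha a ha a ha (Or.inl hX)
    · intro a ha
      exact hop a ha a ha a ha a ha (Or.inr (by simp))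
    · intro a ha b hb
      exact hop a ha b hb a ha a ha (Or.inr (by simp))
    · intro a ha b hb c hc
      exact hop a ha b hb c hc a ha (Or.inr (by simp))
    · intro a ha b hb c hc d hd
      exact hop a ha b hb c hc d hd (Or.inr (by simp))
    · intro a ha b hb
      exact hop a ha b hb a ha a ha (Or.inr (by simp))
  · intro R hR
    exact hop R hR R hR R hR R hR (Or.inr (by simp))

/-- Generic functions exist over small families. -/
lemma exists_generic (hcov : ℵ₁ < covM) {M' I : Set (Set ℕ)} (hM' : #M' ≤ (ℵ₁ : Cardinal.{0}))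
    (hI : IsIdeal I) : ∃ x, Generic M' I x := by
  classical
  let Bad : M' × M' → Set (ℕ → ℕ) := fun q =>
    {x | q.1.1.Infinite ∧ (∀ n, sec q.2.1 n ∈ I) ∧ ¬ {n | n ∈ q.1.1 ∧ x n ∉ sec q.2.1 n}.Infinite}
  have hmeag : ∀ q, IsMeagre (Bad q) := by
    intro q
    by_cases h : q.1.1.Infinite ∧ (∀ n, sec q.2.1 n ∈ I)
    · have h1 : ∀ m : ℕ, {x : ℕ → ℕ | ∃ n, m ≤ n ∧ n ∈ q.1.1 ∧ x n ∉ sec q.2.1 n} ∈
          residual (ℕ → ℕ) := by
        intro m
        refine residual_of_dense_open ?_ ?_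
        · have : {x : ℕ → ℕ | ∃ n, m ≤ n ∧ n ∈ q.1.1 ∧ x n ∉ sec q.2.1 n} =
              ⋃ n : {n // m ≤ n ∧ n ∈ q.1.1}, (fun x : ℕ → ℕ => x n.1) ⁻¹' (sec q.2.1 n.1)ᶜ := by
            ext x
            simp only [mem_ofPred_eq, mem_iUnion, mem_preimage, mem_compl_iff, Subtype.exists]
            constructor
            · rintro ⟨n, h1, h2, h3⟩
              exact ⟨n, ⟨h1, h2⟩, h3⟩
            · rintro ⟨n, ⟨h1, h2⟩, h3⟩
              exact ⟨n, h1, h2, h3⟩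
          rw [this]
          exact isOpen_iUnion fun n => (isOpen_discrete _).preimage (continuous_apply n.1)
        · rw [dense_iff_inter_open]
          rintro U hU ⟨x, hx⟩
          rw [isOpen_pi_iff] at hU
          obtain ⟨J, u, hu, hsub⟩ := hU x hx
          obtain ⟨n, hnq, hn⟩ := (h.1.sdiff (J.finite_toSet.union (finite_Iio m))).nonempty
          simp only [mem_union, Finset.mem_coe, mem_Iio, not_or, not_lt] at hn
          obtain ⟨v, hv⟩ : ∃ v, v ∉ sec q.2.1 n := by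
            by_contra hcon
            push Not at hcon
            have h3 : sec q.2.1 n = Set.univ := eq_univ_of_forall hcon
            exact hI.proper (h3 ▸ h.2 n)
          refine ⟨Function.update x n v, hsub ?_, n, hn.2, hnq, ?_⟩
          · intro i hi
            have him : i ≠ n := fun h => hn.1 (h ▸ hi)
            rw [Function.update_of_ne him]
            exact (hu i hi).2
          · rw [Function.update_self]
            exact hv
      have h2 : (⋂ m : ℕ, {x : ℕ → ℕ | ∃ n, m ≤ n ∧ n ∈ q.1.1 ∧ x n ∉ sec q.2.1 n}) ∈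
          residual (ℕ → ℕ) := countable_iInter_mem.2 h1
      unfold IsMeagre
      refine Filter.mem_of_superset h2 ?_
      intro x hx hxB
      apply hxB.2.2
      refine Set.infinite_of_not_bddAbove ?_
      rintro ⟨K, hK⟩
      obtain ⟨n, hn1, hn2, hn3⟩ := mem_iInter.1 hx (K + 1)
      have := hK ⟨hn2, hn3⟩
      omega
    · have : Bad q = ∅ := by
        ext x
        simp only [mem_empty_iff_false, iff_false]
        intro hx
        exact h ⟨hx.1, hx.2.1⟩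
      rw [this]
      exact IsMeagre.empty
  have hne : ⋃₀ (range Bad) ≠ Set.univ := by
    intro huniv
    have h1 : covM ≤ #(range Bad) := csInf_le' ⟨range Bad, by
      rintro _ ⟨q, rfl⟩
      exact hmeag q, huniv, rfl⟩
    have h2 : #(range Bad) ≤ (ℵ₁ : Cardinal.{0}) := mk_range_le.trans (card_prod_le hM' hM')
    exact absurd (h1.trans h2) (not_le.2 hcov)
  obtain ⟨x, hx⟩ := (ne_univ_iff_exists_notMem _).1 hne
  refine ⟨x, fun Y hY hYinf s hs hsI => ?_⟩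
  by_contra hcon
  exact hx ⟨Bad (⟨Y, hY⟩, ⟨s, hs⟩), ⟨_, rfl⟩, hYinf, hsI, hcon⟩

/-- The sparse set coded by a point of the Baire space. -/
def code (x : ℕ → ℕ) : Set ℕ := range (fun m => 2 ^ m + x m)

lemma code_sparse (x : ℕ → ℕ) : code x ∈ sparse :=
  range_sparse (fun _ => Nat.le_add_right _ _)

lemma hit_open (B : Set ℕ) : IsOpen {x : ℕ → ℕ | ∃ m, 2 ^ m + x m ∈ B} := by
  have : {x : ℕ → ℕ | ∃ m, 2 ^ m + x m ∈ B} = ⋃ m, (fun x : ℕ → ℕ => x m) ⁻¹' {t | 2 ^ m + t ∈ B} := by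
    ext x
    simp
  rw [this]
  exact isOpen_iUnion fun m => (isOpen_discrete _).preimage (continuous_apply m)

lemma hit_dense {B : Set ℕ} (hB : B.Infinite) :
    Dense {x : ℕ → ℕ | ∃ m, 2 ^ m + x m ∈ B} := by
  classical
  rw [dense_iff_inter_open]
  rintro U hU ⟨x, hx⟩
  rw [isOpen_pi_iff] at hU
  obtain ⟨I, u, hu, hsub⟩ := hU x hx
  obtain ⟨m, hm⟩ := Infinite.exists_notMem_finset I
  obtain ⟨b, hb, hbm⟩ := (hB.sdiff (finite_Iio (2 ^ m))).nonempty
  have hbm' : 2 ^ m ≤ b := not_lt.1 hbm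
  refine ⟨Function.update x m (b - 2 ^ m), hsub ?_, m, ?_⟩
  · intro i hi
    have him : i ≠ m := fun h => hm (h ▸ hi)
    rw [Function.update_of_ne him]
    exact (hu i hi).2
  · rw [Function.update_self]
    rwa [Nat.add_sub_cancel' hbm']

lemma luzinFam_of_luzin {L : Set (ℕ → ℕ)} (hL : IsLuzin L) :
    LuzinFam (fun i : L => code i.1) := by
  intro B hB
  have h1 : ∀ m, {x : ℕ → ℕ | ∃ k, 2 ^ k + x k ∈ B m} ∈ residual (ℕ → ℕ) :=
    fun m => residual_of_dense_open (hit_open _) (hit_dense (hB m))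
  have h2 : (⋂ m, {x : ℕ → ℕ | ∃ k, 2 ^ k + x k ∈ B m}) ∈ residual (ℕ → ℕ) :=
    countable_iInter_mem.2 h1
  have h3 : IsMeagre (⋂ m, {x : ℕ → ℕ | ∃ k, 2 ^ k + x k ∈ B m})ᶜ := by
    unfold IsMeagre
    rw [compl_compl]
    exact h2
  have h4 := hL.2 _ h3
  have h5 : ((fun i : L => i.1) ⁻¹' (L ∩ (⋂ m, {x : ℕ → ℕ | ∃ k, 2 ^ k + x k ∈ B m})ᶜ)).Countable :=
    h4.preimage Subtype.val_injective
  refine h5.mono ?_
  intro i hi
  refine ⟨i.2, fun hmem => hi fun m => ?_⟩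
  obtain ⟨k, hk⟩ := mem_iInter.1 hmem m
  exact ⟨_, ⟨k, rfl⟩, hk⟩

/-- The base triple. -/
lemma exists_base {ι : Type} {F : Set ℕ → Set (Set ℕ)} (hF : WFN F) {a : ι → Set ℕ}
    (hL : LuzinFam a) (hι : #ι ≤ (ℵ₁ : Cardinal.{0})) :
    ∃ T : Tr, Good F a T ∧ #T.M ≤ (ℵ₁ : Cardinal.{0}) := by
  classical
  obtain ⟨M, hZM, hMc, hcl, _⟩ := exists_closure hF.1 id
    (Z := range a ∪ range (fun n : ℕ => (Iio n : Set ℕ)))
    ((mk_union_le _ _).trans (add_le_of_le (aleph0_le_aleph 1) (mk_range_le.trans hι)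
      (card_countable_le (countable_range _)))) ⟨_, Or.inr ⟨0, rfl⟩⟩
  refine ⟨⟨M, fun _ => {X | X.Finite}⟩, ⟨hcl, fun i => hZM (Or.inl ⟨i, rfl⟩), ?_, ?_, ?_, ?_⟩, hMc⟩
  · intro b
    exact ⟨fun _ h => h, fun A hA B hB => hA.subset hB, fun A hA B hB => hA.union hB,
      fun h => infinite_univ h⟩
  · intro b X hX
    obtain ⟨K, hK⟩ := (show X.Finite from hX).bddAbove
    exact ⟨Iio (K + 1), finite_Iio _, hZM (Or.inr ⟨K + 1, rfl⟩), fun n hn =>
      Nat.lt_succ_of_le (hK hn)⟩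
  · intro U hU V hV huniv
    exact infinite_univ (huniv ▸ (show U.Finite from hU).union hV)
  · intro N y hunc
    by_cases hN : N.Finite
    · exact ⟨N, hN, ∅, finite_empty, subset_union_left⟩
    · exfalso
      apply hunc
      by_cases hle : {n | n ∈ N ∧ y n ≤ n}.Finite
      · have h1 := hL (fun m => y '' {n | n ∈ N ∧ m ≤ n}) (fun m => by
          refine Set.infinite_of_not_bddAbove ?_
          rintro ⟨K, hK⟩
          obtain ⟨n, hnN, hn⟩ := ((show N.Infinite from hN).sdiff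
            (hle.union (finite_Iio (max m (K + 1))))).nonempty
          have hn1 : ¬ (y n ≤ n) := fun h => hn (Or.inl ⟨hnN, h⟩)
          have hn2 : max m (K + 1) ≤ n := not_lt.1 fun h => hn (Or.inr h)
          have hn3 := hK ⟨n, ⟨hnN, (le_max_left _ _).trans hn2⟩, rfl⟩
          have hn4 := (le_max_right m (K + 1)).trans hn2
          omega)
        refine h1.mono ?_
        intro i hi hall
        refine absurd hi.1 ?_
        refine Set.infinite_of_not_bddAbove ?_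
        rintro ⟨K, hK⟩
        obtain ⟨_, hva, n, ⟨hnN, hn⟩, rfl⟩ := hall (K + 1)
        have := hK ⟨hnN, Or.inl hva⟩
        omega
      · have : {i | hitSet (a i) N y ∈ {X : Set ℕ | X.Finite} ∧
            hitSet (a i) N y ∈ {X : Set ℕ | X.Finite}} = ∅ := by
          ext i
          simp only [mem_empty_iff_false, iff_false]
          intro hi
          exact hle ((show (hitSet (a i) N y).Finite from hi.1).subset
            fun n hn => ⟨hn.1, Or.inr hn.2⟩)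
        change {i | hitSet (a i) N y ∈ {X : Set ℕ | X.Finite} ∧
            hitSet (a i) N y ∈ {X : Set ℕ | X.Finite}}.Countable
        rw [this]
        exact countable_empty

/-- The sections of a family of coded slaloms. -/
def secs (S : Set (Set ℕ)) : Set (Set ℕ) := {c | ∃ s ∈ S, ∃ n, c = sec s n}

def Tr.swap (T : Tr) : Tr := ⟨T.M, fun b => T.J (!b)⟩

lemma good_swap {ι : Type} {F : Set ℕ → Set (Set ℕ)} {a : ι → Set ℕ} {T : Tr} (h : Good F a T) :
    Good F a T.swap := by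
  refine ⟨h.cl, h.aM, fun b => h.ideal _, fun b => h.cof _, ?_, ?_⟩
  · intro U hU V hV
    rw [union_comm]
    exact h.join V hV U hU
  · intro N y hunc
    obtain ⟨U, hU, V, hV, hN⟩ := h.inv N y (by
      intro hc
      apply hunc
      refine hc.mono ?_
      rintro i ⟨h1, h2⟩
      exact ⟨h2, h1⟩)
    exact ⟨V, hV, U, hU, by rwa [union_comm]⟩

lemma ext_swap {T T' : Tr} (h : Ext T.swap T') : Ext T T'.swap := by
  refine ⟨h.M, fun b => ?_, fun b X hX hX' => ?_⟩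
  · have := h.J (!b)
    simpa [Tr.swap] using this
  · have := h.cons (!b) X hX (by simpa [Tr.swap] using hX')
    simpa [Tr.swap] using this

lemma step_false {ι : Type} {F : Set ℕ → Set (Set ℕ)} (hF : WFN F) {a : ι → Set ℕ} [Nonempty ι]
    (hL : LuzinFam a) (hcov : ℵ₁ < covM) {T : Tr} (hT : Good F a T)
    (hTc : #T.M ≤ (ℵ₁ : Cardinal.{0})) {S : Set (Set ℕ)} (hS : #S ≤ (ℵ₁ : Cardinal.{0}))
    (hgen : GeneratesIdeal (secs S)) :
    ∃ T' : Tr, Good F a T' ∧ #T'.M ≤ (ℵ₁ : Cardinal.{0}) ∧ Ext T T' ∧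
      ∃ x : ℕ → ℕ, ∀ s ∈ S, caught x s ∈ T'.J false := by
  have hI := gen_isIdeal hgen
  obtain ⟨i₀⟩ := ‹Nonempty ι›
  obtain ⟨M', hZ', hM'c, hM'cl, hM'S⟩ := exists_closure hF.1 (SlOp (gen (secs S)))
    (Z := T.M ∪ S) ((mk_union_le _ _).trans (add_le_of_le (aleph0_le_aleph 1) hTc hS))
    ⟨_, Or.inl (hT.aM i₀)⟩
  obtain ⟨x, hx⟩ := exists_generic hcov hM'c hI
  obtain ⟨M'', hZ'', hM''c, hM''cl, _⟩ := exists_closure hF.1 id
    (Z := M' ∪ caught x '' M') ((mk_union_le _ _).trans (add_le_of_le (aleph0_le_aleph 1) hM'c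
      (mk_image_le.trans hM'c))) ⟨_, Or.inl (hZ' (Or.inl (hT.aM i₀)))⟩
  have : Nonempty ι := ⟨i₀⟩
  obtain ⟨h1, h2⟩ := successor hF hL hT (subset_union_left.trans hZ') hM'cl hI hM'S hx hM''cl
    (subset_union_left.trans hZ'') (fun s hs => hZ'' (Or.inr ⟨s, hs, rfl⟩))
  refine ⟨_, h1, hM''c, h2, x, fun s hs => ?_⟩
  change caught x s ∈ newJ (T.J false) M' (gen (secs S)) x
  refine ⟨∅, (hT.ideal false).finite_mem _ finite_empty, s, hZ' (Or.inr hs), fun n => ?_,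
    subset_union_right⟩
  refine ⟨{sec s n}, ?_, ?_⟩
  · intro c hc
    rw [Finset.mem_singleton.1 hc]
    exact ⟨s, hs, n, rfl⟩
  · simp

lemma step_exists {ι : Type} {F : Set ℕ → Set (Set ℕ)} (hF : WFN F) {a : ι → Set ℕ} [Nonempty ι]
    (hL : LuzinFam a) (hcov : ℵ₁ < covM) {T : Tr} (hT : Good F a T)
    (hTc : #T.M ≤ (ℵ₁ : Cardinal.{0})) {S : Set (Set ℕ)} (hS : #S ≤ (ℵ₁ : Cardinal.{0}))
    (hgen : GeneratesIdeal (secs S)) (b : Bool) :
    ∃ T' : Tr, Good F a T' ∧ #T'.M ≤ (ℵ₁ : Cardinal.{0}) ∧ Ext T T' ∧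
      ∃ x : ℕ → ℕ, ∀ s ∈ S, caught x s ∈ T'.J b := by
  cases b
  · exact step_false hF hL hcov hT hTc hS hgen
  · obtain ⟨T', h1, h2, h3, x, hx⟩ := step_false hF hL hcov (good_swap hT) hTc hS hgen
    exact ⟨T'.swap, good_swap h1, h2, ext_swap h3, x, hx⟩

end Pool.Agent.V11254.Kat
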