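import Pool.Agent.V11254.Kat.Rec3

/-!
# The recursion of length `ω₂` and the failure of (i) and (iii)
-/

set_option autoImplicit false

open Set Cardinal

namespace Pool.Agent.V11254.Kat

/-- The index set of the recursion. -/
abbrev Om : Type := (Order.succ (ℵ₁ : Cardinal.{0})).ord.ToType

lemma mk_Om : #Om = Order.succ (ℵ₁ : Cardinal.{0}) := mk_ord_toType _

lemma mk_initial (ξ : Om) : #(Iio ξ) ≤ (ℵ₁ : Cardinal.{0}) :=
  Order.lt_succ_iff.1 (mk_Iio_toType_ord_lt ξ)

/-- The tasks. -/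
abbrev Tk : Type := {S : Set (Set ℕ) // #S ≤ (ℵ₁ : Cardinal.{0})} × Bool

lemma exists_tasks (hc : (2 : Cardinal.{0}) ^ (ℵ₁ : Cardinal.{0}) = Order.succ ℵ₁) :
    ∃ t : Om → Tk, Function.Surjective t := by
  have h1 : #{S : Set (Set ℕ) // #S ≤ (ℵ₁ : Cardinal.{0})} ≤ (max #(Set ℕ) ℵ₀) ^ (ℵ₁ : Cardinal.{0}) :=
    mk_bounded_set_le _ _
  have h3 : #(Set ℕ) = 𝔠 := by rw [mk_set, mk_nat, two_power_aleph0]
  rw [h3, max_eq_left aleph0_le_continuum] at h1
  have h4 : (𝔠 : Cardinal.{0}) ^ (ℵ₁ : Cardinal.{0}) = Order.succ ℵ₁ := by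
    rw [← two_power_aleph0, ← power_mul, aleph0_mul_eq (aleph0_le_aleph 1), hc]
  rw [h4] at h1
  have h5 : #Tk ≤ #Om := by
    rw [mk_Om, mk_prod, lift_id, lift_id, mk_bool]
    calc #{S : Set (Set ℕ) // #S ≤ (ℵ₁ : Cardinal.{0})} * 2
        ≤ Order.succ ℵ₁ * Order.succ ℵ₁ := mul_le_mul' h1 ((natCast_lt_aleph0 (n := 2)).le.trans
          ((aleph0_le_aleph 1).trans (Order.le_succ _)))
      _ = Order.succ ℵ₁ := mul_eq_self ((aleph0_le_aleph 1).trans (Order.le_succ _))
  obtain ⟨e⟩ : Nonempty (Tk ↪ Om) := by rwa [← Cardinal.le_def]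
  have : Nonempty Tk := ⟨⟨⟨∅, by simp⟩, false⟩⟩
  exact ⟨Function.invFun e, Function.invFun_surjective e.injective⟩

/-- The result of the recursion. -/
theorem exists_final {ι : Type} {F : Set ℕ → Set (Set ℕ)} (hF : WFN F) {a : ι → Set ℕ} [Nonempty ι]
    (hL : LuzinFam a) (hι : #ι ≤ (ℵ₁ : Cardinal.{0})) (hcov : ℵ₁ < covM)
    (hc : (2 : Cardinal.{0}) ^ (ℵ₁ : Cardinal.{0}) = Order.succ ℵ₁) :
    ∃ T : Tr, Good F a T ∧ ∀ S : Set (Set ℕ), #S ≤ (ℵ₁ : Cardinal.{0}) → GeneratesIdeal (secs S) →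
      ∀ b, ∃ x : ℕ → ℕ, ∀ s ∈ S, caught x s ∈ T.J b := by
  classical
  obtain ⟨T₀, hT₀, hT₀c⟩ := exists_base hF hL hι
  obtain ⟨task, htask⟩ := exists_tasks hc
  have hstep : ∀ (t : Tk) (T : Tr), ∃ T' : Tr, Good F a T → #T.M ≤ (ℵ₁ : Cardinal.{0}) →
      Good F a T' ∧ #T'.M ≤ (ℵ₁ : Cardinal.{0}) ∧ Ext T T' ∧
      (GeneratesIdeal (secs t.1.1) → ∃ x : ℕ → ℕ, ∀ s ∈ t.1.1, caught x s ∈ T'.J t.2) := by
    intro t T
    by_cases h : Good F a T ∧ #T.M ≤ (ℵ₁ : Cardinal.{0})
    · by_cases hg : GeneratesIdeal (secs t.1.1)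
      · obtain ⟨T', h1, h2, h3, h4⟩ := step_exists hF hL hcov h.1 h.2 t.1.2 hg t.2
        exact ⟨T', fun _ _ => ⟨h1, h2, h3, fun _ => h4⟩⟩
      · exact ⟨T, fun h1 h2 => ⟨h1, h2, Ext.refl T, fun h' => absurd h' hg⟩⟩
    · exact ⟨T, fun h1 h2 => absurd ⟨h1, h2⟩ h⟩
  choose stepT hstepT using hstep
  let st : Om → Tr := (wellFounded_lt (α := Om)).fix (C := fun _ => Tr)
    (fun ξ ih => stepT (task ξ)
      (iUnionTr (fun d : Option {η // η < ξ} => d.elim T₀ (fun η => ih η.1 η.2))))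
  have hst : ∀ ξ, st ξ = stepT (task ξ)
      (iUnionTr (fun d : Option {η // η < ξ} => d.elim T₀ (fun η => st η.1))) :=
    fun ξ => (wellFounded_lt (α := Om)).fix_eq _ ξ
  have hP : ∀ ξ, (Good F a (st ξ) ∧ #(st ξ).M ≤ (ℵ₁ : Cardinal.{0})) ∧
      (∀ η < ξ, Ext (st η) (st ξ)) ∧ Ext T₀ (st ξ) ∧
      (GeneratesIdeal (secs (task ξ).1.1) →
        ∃ x : ℕ → ℕ, ∀ s ∈ (task ξ).1.1, caught x s ∈ (st ξ).J (task ξ).2) := by
    intro ξ
    induction ξ using (wellFounded_lt (α := Om)).induction with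
    | _ ξ ih =>
      have htot : ∀ d e : Option {η // η < ξ},
          Ext ((fun d : Option {η // η < ξ} => d.elim T₀ (fun η => st η.1)) d)
            ((fun d : Option {η // η < ξ} => d.elim T₀ (fun η => st η.1)) e) ∨
          Ext ((fun d : Option {η // η < ξ} => d.elim T₀ (fun η => st η.1)) e)
            ((fun d : Option {η // η < ξ} => d.elim T₀ (fun η => st η.1)) d) := by
        rintro (_ | d) (_ | e)
        · exact Or.inl (Ext.refl _)
        · exact Or.inl (ih e.1 e.2).2.2.1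
        · exact Or.inr (ih d.1 d.2).2.2.1
        · rcases lt_trichotomy d.1 e.1 with h | h | h
          · exact Or.inl ((ih e.1 e.2).2.1 d.1 h)
          · left
            have : d = e := Subtype.ext h
            rw [this]
            exact Ext.refl _
          · exact Or.inr ((ih d.1 d.2).2.1 e.1 h)
      have hgood : ∀ d : Option {η // η < ξ},
          Good F a ((fun d : Option {η // η < ξ} => d.elim T₀ (fun η => st η.1)) d) := by
        rintro (_ | d)
        · exact hT₀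
        · exact (ih d.1 d.2).1.1
      have hU := good_iUnion hF htot hgood
      have hUc : #(iUnionTr (fun d : Option {η // η < ξ} => d.elim T₀ (fun η => st η.1))).M ≤
          (ℵ₁ : Cardinal.{0}) := by
        refine card_iUnion_le _ ?_ ?_
        · rw [mk_option]
          refine add_le_of_le (aleph0_le_aleph 1) (mk_initial ξ) ?_
          exact (one_lt_aleph0.le).trans (aleph0_le_aleph 1)
        · rintro (_ | d)
          · exact hT₀c
          · exact (ih d.1 d.2).1.2
      obtain ⟨h1, h2, h3, h4⟩ := hstepT (task ξ) _ hU hUc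
      rw [← hst ξ] at h1 h2 h3 h4
      refine ⟨⟨h1, h2⟩, fun η hη => ?_, ?_, h4⟩
      · exact (ext_iUnion htot (some ⟨η, hη⟩)).trans h3
      · exact (ext_iUnion htot none).trans h3
  have htot : ∀ d e : Option Om, Ext ((fun d : Option Om => d.elim T₀ st) d)
      ((fun d : Option Om => d.elim T₀ st) e) ∨ Ext ((fun d : Option Om => d.elim T₀ st) e)
      ((fun d : Option Om => d.elim T₀ st) d) := by
    rintro (_ | d) (_ | e)
    · exact Or.inl (Ext.refl _)
    · exact Or.inl (hP e).2.2.1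
    · exact Or.inr (hP d).2.2.1
    · rcases lt_trichotomy d e with h | h | h
      · exact Or.inl ((hP e).2.1 d h)
      · left
        rw [h]
        exact Ext.refl _
      · exact Or.inr ((hP d).2.1 e h)
  have hgood : ∀ d : Option Om, Good F a ((fun d : Option Om => d.elim T₀ st) d) := by
    rintro (_ | d)
    · exact hT₀
    · exact (hP d).1.1
  refine ⟨iUnionTr (fun d : Option Om => d.elim T₀ st), good_iUnion hF htot hgood, ?_⟩
  intro S hS hgen b
  obtain ⟨ξ, hξ⟩ := htask (⟨S, hS⟩, b)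
  have h1 := (hP ξ).2.2.2
  rw [hξ] at h1
  obtain ⟨x, hx⟩ := h1 hgen
  exact ⟨x, fun s hs => (ext_iUnion htot (some ξ)).J b (hx s hs)⟩

/-- The final ideals. -/
theorem i_iii_fail {F : Set ℕ → Set (Set ℕ)} (hF : WFN F) {L : Set (ℕ → ℕ)} (hL : IsLuzin L)
    (hcov : ℵ₁ < covM) (hc : (2 : Cardinal.{0}) ^ (ℵ₁ : Cardinal.{0}) = Order.succ ℵ₁) :
    ∃ J₀ J₁ : Set (Set ℕ), IsIdeal J₀ ∧ IsIdeal J₁ ∧
      sle sparse (J₀ ∩ J₁) ≤ ((ℵ₁ : Cardinal.{0}) : WithTop Cardinal.{0}) ∧
      ∀ I, IsIdeal I → ((ℵ₁ : Cardinal.{0}) : WithTop Cardinal.{0}) < sle I (osum J₀ J₁) ∧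
        ((Order.succ (ℵ₁ : Cardinal.{0}) : Cardinal.{0}) : WithTop Cardinal.{0}) ≤
          sle I (osum J₀ J₁) := by
  classical
  have hLne : Nonempty L := by
    rw [← mk_ne_zero_iff, hL.1]
    exact (aleph_pos 1).ne'
  obtain ⟨T, hT, htask⟩ := exists_final hF (luzinFam_of_luzin hL) hL.1.le hcov hc
  refine ⟨T.J false, T.J true, hT.ideal false, hT.ideal true, ?_, ?_⟩
  · have h1 : (∀ s ∈ range (fun i : L => hs (code i.1)), ∀ n, s n ∈ sparse) ∧
        ∀ x : ℕ → ℕ, ∃ s ∈ range (fun i : L => hs (code i.1)), {n : ℕ | x n ∈ s n} ∉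
          T.J false ∩ T.J true := by
      constructor
      · rintro _ ⟨i, rfl⟩ n
        exact sparse_union (code_sparse _) (sparse_finite (finite_Iic n))
      · intro x
        by_contra hcon
        push Not at hcon
        obtain ⟨U, hU, V, hV, hUV⟩ := hT.inv Set.univ x (by
          intro hcount
          have h2 : {i : L | hitSet (code i.1) Set.univ x ∈ T.J false ∧
              hitSet (code i.1) Set.univ x ∈ T.J true} = Set.univ := by
            refine eq_univ_of_forall fun i => ?_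
            have h3 := hcon _ ⟨i, rfl⟩
            have h4 : hitSet (code i.1) Set.univ x = {n : ℕ | x n ∈ hs (code i.1) n} := by
              ext n
              simp [hitSet]
            rw [mem_ofPred_eq, h4]
            exact h3
          rw [h2] at hcount
          have h5 := Cardinal.mk_le_aleph0_iff.2 hcount
          rw [mk_univ, hL.1] at h5
          exact absurd h5 (not_le.2 aleph0_lt_aleph_one))
        exact hT.join U hU V hV (univ_subset_iff.1 hUV)
    refine (iInf₂_le (range (fun i : L => hs (code i.1))) h1).trans ?_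
    exact WithTop.coe_le_coe.2 (mk_range_le.trans hL.1.le)
  · intro I hI
    -- evaders modulo both ideals
    have hev : ∀ b, ∀ S : Set (ℕ → Set ℕ), (∀ s ∈ S, ∀ n, s n ∈ I) → #S ≤ (ℵ₁ : Cardinal.{0}) →
        ∃ x : ℕ → ℕ, ∀ s ∈ S, {n : ℕ | x n ∈ s n} ∈ T.J b := by
      intro b S hS hSc
      let cd : (ℕ → Set ℕ) → Set ℕ := fun s => {t | g1 t ∈ s (g0 t)}
      have hcd : ∀ s n, sec (cd s) n = s n := by
        intro s n
        ext k
        simp [sec, cd, g0, g1]
      have hgen : GeneratesIdeal (secs (cd '' S)) := by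
        intro G hG hfin
        have h2 : ∀ G : Finset (Set ℕ), (∀ c ∈ G, c ∈ I) → (⋃ c ∈ G, c) ∈ I := by
          intro G
          induction G using Finset.induction_on with
          | empty =>
            intro _
            simpa using hI.finite_mem ∅ finite_empty
          | insert c G' _ ih =>
            intro hG'
            rw [Finset.set_biUnion_insert]
            exact hI.union _ (hG' c (Finset.mem_insert_self _ _)) _
              (ih fun d hd => hG' d (Finset.mem_insert_of_mem hd))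
        have h3 := h2 G (fun c hc => by
          obtain ⟨_, ⟨s, hs, rfl⟩, n, rfl⟩ := hG c hc
          rw [hcd]
          exact hS s hs n)
        have h4 := hI.union _ h3 _ (hI.finite_mem _ hfin)
        rw [union_compl_self] at h4
        exact hI.proper h4
      obtain ⟨x, hx⟩ := htask (cd '' S) (mk_image_le.trans hSc) hgen b
      refine ⟨x, fun s hs => ?_⟩
      have h5 := hx (cd s) ⟨s, hs, rfl⟩
      have h6 : caught x (cd s) = {n : ℕ | x n ∈ s n} := by
        ext n
        change x n ∈ sec (cd s) n ↔ _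
        rw [hcd]
        rfl
      rwa [h6] at h5
    have hsucc : ((Order.succ (ℵ₁ : Cardinal.{0}) : Cardinal.{0}) : WithTop Cardinal.{0}) ≤
        sle I (osum (T.J false) (T.J true)) := by
      unfold sle
      refine le_iInf₂ fun S hS => WithTop.coe_le_coe.2 (Order.succ_le_of_lt ?_)
      by_contra hcon
      have hSc := not_lt.1 hcon
      obtain ⟨x₀, hx₀⟩ := hev false ((fun (s : ℕ → Set ℕ) n => s (2 * n)) '' S) (by
        rintro _ ⟨s, hs, rfl⟩ n
        exact hS.1 s hs _) (mk_image_le.trans hSc)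
      obtain ⟨x₁, hx₁⟩ := hev true ((fun (s : ℕ → Set ℕ) n => s (2 * n + 1)) '' S) (by
        rintro _ ⟨s, hs, rfl⟩ n
        exact hS.1 s hs _) (mk_image_le.trans hSc)
      obtain ⟨s, hs, hs'⟩ := hS.2 (fun n => if n % 2 = 0 then x₀ (n / 2) else x₁ (n / 2))
      apply hs'
      constructor
      · have h7 := hx₀ _ ⟨s, hs, rfl⟩
        have h8 : {n : ℕ | 2 * n ∈ {n : ℕ | (if n % 2 = 0 then x₀ (n / 2) else x₁ (n / 2)) ∈ s n}} =
            {n : ℕ | x₀ n ∈ s (2 * n)} := by
          ext n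
          simp
        rw [h8]
        exact h7
      · have h7 := hx₁ _ ⟨s, hs, rfl⟩
        have h8 : {n : ℕ | 2 * n + 1 ∈
            {n : ℕ | (if n % 2 = 0 then x₀ (n / 2) else x₁ (n / 2)) ∈ s n}} =
            {n : ℕ | x₁ n ∈ s (2 * n + 1)} := by
          ext n
          have h9 : (2 * n + 1) / 2 = n := by omega
          simp [h9]
        rw [h8]
        exact h7
    exact ⟨lt_of_lt_of_le (WithTop.coe_lt_coe.2 (Order.lt_succ _)) hsucc, hsucc⟩

end Pool.Agent.V11254.Kat
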