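import Pool.Agent.V11254.Kat.Rec4

/-!
# The failure of (iv) under the same hypotheses
-/

set_option autoImplicit false

open Set Cardinal

namespace Pool.Agent.V11254.Kat

lemma singleton_meagre (x : ℕ → ℕ) : IsMeagre ({x} : Set (ℕ → ℕ)) := by
  classical
  have h1 : ({x}ᶜ : Set (ℕ → ℕ)) ∈ residual (ℕ → ℕ) := by
    refine residual_of_dense_open isOpen_compl_singleton ?_
    rw [dense_iff_inter_open]
    rintro U hU ⟨y, hy⟩
    rw [isOpen_pi_iff] at hU
    obtain ⟨J, u, hu, hsub⟩ := hU y hy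
    obtain ⟨m, hm⟩ := Infinite.exists_notMem_finset J
    refine ⟨Function.update y m (x m + 1), hsub ?_, ?_⟩
    · intro i hi
      have him : i ≠ m := fun h => hm (h ▸ hi)
      rw [Function.update_of_ne him]
      exact (hu i hi).2
    · intro h
      have h2 := congrFun (mem_singleton_iff.1 h) m
      rw [Function.update_self] at h2
      omega
  exact h1

lemma covM_le : covM ≤ 𝔠 := by
  have h1 : covM ≤ #(range (fun x : ℕ → ℕ => ({x} : Set (ℕ → ℕ)))) := by
    refine csInf_le' ⟨_, ?_, ?_, rfl⟩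
    · rintro _ ⟨x, rfl⟩
      exact singleton_meagre x
    · refine eq_univ_of_forall fun x => ?_
      exact mem_sUnion.2 ⟨{x}, ⟨x, rfl⟩, rfl⟩
  refine h1.trans (mk_range_le.trans ?_)
  simp

lemma continuum_eq (hcov : ℵ₁ < covM)
    (hc : (2 : Cardinal.{0}) ^ (ℵ₁ : Cardinal.{0}) = Order.succ ℵ₁) :
    (2 : Cardinal.{0}) ^ (ℵ₁ : Cardinal.{0}) = 𝔠 := by
  refine le_antisymm ?_ ?_
  · rw [hc]
    exact Order.succ_le_of_lt (hcov.trans_le covM_le)
  · rw [← two_power_aleph0]
    exact power_le_power_left two_ne_zero (aleph0_le_aleph 1)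

lemma sparse_generates {A : Set (Set ℕ)} (hA : A ⊆ sparse) : GeneratesIdeal A := by
  classical
  intro F hF hfin
  have h1 : ∀ F : Finset (Set ℕ), (∀ a ∈ F, a ∈ A) → (⋃ a ∈ F, a) ∈ sparse := by
    intro F
    induction F using Finset.induction_on with
    | empty =>
      intro _
      simpa using sparse_finite finite_empty
    | insert a s ha ih =>
      intro hF
      rw [Finset.set_biUnion_insert]
      exact sparse_union (hA (hF a (Finset.mem_insert_self _ _)))
        (ih fun b hb => hF b (Finset.mem_insert_of_mem hb))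
  have h2 := sparse_union (h1 F hF) (sparse_finite hfin)
  rw [union_compl_self] at h2
  exact sparse_not_univ h2

/-- (iv) fails under the hypotheses of the recursion. -/
theorem iv_fails' {L : Set (ℕ → ℕ)} (hL : IsLuzin L) (hcov : ℵ₁ < covM)
    (hc : (2 : Cardinal.{0}) ^ (ℵ₁ : Cardinal.{0}) = Order.succ ℵ₁) :
    ∃ J₀ J₁ : Set (Set ℕ), IsIdeal J₀ ∧ IsIdeal J₁ ∧
      pKStar (J₀ ∩ J₁) ≤ ((ℵ₁ : Cardinal.{0}) : WithTop Cardinal.{0}) ∧
      ((ℵ₁ : Cardinal.{0}) : WithTop Cardinal.{0}) < pKStar (osum J₀ J₁) := by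
  obtain ⟨K, hK, hbig⟩ := exists_big_ideal (aleph0_le_aleph 1) (continuum_eq hcov hc)
  refine ⟨pull K g0, pull K g1, pull_isIdeal hK g0_surj, pull_isIdeal hK g1_surj, ?_, ?_⟩
  · set A : Set (Set ℕ) := range (fun i : L => code i.1) ∪ range (fun n : ℕ => (Iio n : Set ℕ))
    have hAs : A ⊆ sparse := by
      rintro a (⟨x, rfl⟩ | ⟨n, rfl⟩)
      · exact code_sparse x.1
      · exact sparse_finite (finite_Iio n)
    have hnot : ¬ KatetovLE A (pull K g0 ∩ pull K g1) := by
      rintro ⟨f, hf⟩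
      have hrow := row_unbounded hK (f := f) (fun N => (hf (Iio N) (Or.inr ⟨N, rfl⟩)).2)
      have h1 := luzinFam_of_luzin hL (fun m => range (fun n => f (Nat.pair m n))) (fun m => by
        refine Set.infinite_of_not_bddAbove ?_
        rintro ⟨M, hM⟩
        obtain ⟨n, hn⟩ := hrow m (M + 1)
        have h3 : f (Nat.pair m n) ≤ M := hM ⟨n, rfl⟩
        omega)
      obtain ⟨i, hi⟩ : ∃ i : L, ∀ m, (code i.1 ∩ range (fun n => f (Nat.pair m n))).Nonempty := by
        by_contra hcon
        have h2 : {i : L | ¬ ∀ m, (code i.1 ∩ range (fun n => f (Nat.pair m n))).Nonempty} =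
            Set.univ := by
          refine eq_univ_of_forall fun i hi => hcon ⟨i, hi⟩
        rw [h2] at h1
        have h5 := Cardinal.mk_le_aleph0_iff.2 h1
        rw [mk_univ, hL.1] at h5
        exact absurd h5 (not_le.2 aleph0_lt_aleph_one)
      refine not_mem_pull_of_rows hK (X := f ⁻¹' code i.1) (fun m => ?_)
        (hf _ (Or.inl ⟨i, rfl⟩)).1
      obtain ⟨_, hv, n, rfl⟩ := hi m
      exact ⟨n, hv⟩
    have hcard : #A ≤ (ℵ₁ : Cardinal.{0}) :=
      (mk_union_le _ _).trans (add_le_of_le (aleph0_le_aleph 1) (mk_range_le.trans hL.1.le)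
        (card_countable_le (countable_range _)))
    exact (iInf₂_le A ⟨sparse_generates hAs, hnot⟩).trans (WithTop.coe_le_coe.2 hcard)
  · have h1 : ((Order.succ (ℵ₁ : Cardinal.{0}) : Cardinal.{0}) : WithTop Cardinal.{0}) ≤
        pKStar (osum (pull K g0) (pull K g1)) := by
      unfold pKStar
      refine le_iInf₂ fun A hA => ?_
      refine WithTop.coe_le_coe.2 (Order.succ_le_of_lt ?_)
      by_contra hcon
      have h2 := hbig A hA.1 (not_lt.1 hcon)
      exact hA.2 (katetov_osum (katetov_pull hK g0 h2) (katetov_pull hK g1 h2))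
    exact lt_of_lt_of_le (WithTop.coe_lt_coe.2 (Order.lt_succ _)) h1

end Pool.Agent.V11254.Kat
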