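import Pool.Agent.V11254.Kat.Indep

/-!
# The upper bound by the tower number and the failure of (iv)
-/

set_option autoImplicit false

open Set Cardinal

namespace Pool.Agent.V11254.Kat

/-- A finite subfamily of a tower has a member almost contained in all its members. -/
lemma tower_finite {T : Set (Set ℕ)} (hT : IsTower T) (F : Finset (Set ℕ)) (hF : ∀ a ∈ F, a ∈ T)
    (hne : F.Nonempty) : ∃ t ∈ F, ∀ b ∈ F, (t \ b).Finite := by
  classical
  induction F using Finset.induction_on with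
  | empty => exact absurd hne Finset.not_nonempty_empty
  | insert a s ha ih =>
    rcases s.eq_empty_or_nonempty with rfl | hs
    · refine ⟨a, Finset.mem_insert_self _ _, fun b hb => ?_⟩
      have : b = a := by simpa using hb
      rw [this]
      simp
    · obtain ⟨t, ht, hts⟩ := ih (fun b hb => hF b (Finset.mem_insert_of_mem hb)) hs
      rcases hT.2.1 a (hF a (Finset.mem_insert_self _ _)) t (hF t (Finset.mem_insert_of_mem ht))
        with h | h
      · refine ⟨a, Finset.mem_insert_self _ _, fun b hb => ?_⟩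
        rcases Finset.mem_insert.1 hb with rfl | hb
        · simp
        · refine (h.union (hts b hb)).subset ?_
          rintro x ⟨hx, hxb⟩
          by_cases hxt : x ∈ t
          · exact Or.inr ⟨hxt, hxb⟩
          · exact Or.inl ⟨hx, hxt⟩
      · refine ⟨t, Finset.mem_insert_of_mem ht, fun b hb => ?_⟩
        rcases Finset.mem_insert.1 hb with rfl | hb
        · exact h
        · exact hts b hb

/-- The countable case: countably many members of a tower have a common almost lower bound in the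
tower. -/
lemma tower_countable {T : Set (Set ℕ)} (hT : IsTower T) (t : ℕ → Set ℕ) (ht : ∀ m, t m ∈ T) :
    ∃ u ∈ T, ∀ m, (u \ t m).Finite := by
  classical
  by_contra hcon
  push Not at hcon
  have h1 : ∀ u ∈ T, ∃ m, (t m \ u).Finite := by
    intro u hu
    obtain ⟨m, hm⟩ := hcon u hu
    refine ⟨m, ?_⟩
    rcases hT.2.1 u hu (t m) (ht m) with h | h
    · exact absurd h (by simpa using hm)
    · exact h
  have h2 : ∀ k : ℕ, ∃ b : ℕ, k ≤ b ∧ ∀ j ≤ k, b ∈ t j := by
    intro k
    obtain ⟨v, hv, hvb⟩ := tower_finite hT ((Finset.range (k + 1)).image t) (by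
      intro a ha
      obtain ⟨j, _, rfl⟩ := Finset.mem_image.1 ha
      exact ht j) ⟨t 0, Finset.mem_image.2 ⟨0, by simp, rfl⟩⟩
    have hvT : v ∈ T := by
      obtain ⟨j, _, rfl⟩ := Finset.mem_image.1 hv
      exact ht j
    have h3 : (⋃ j ∈ Finset.range (k + 1), v \ t j).Finite := by
      refine Set.Finite.biUnion (Finset.finite_toSet _) fun j hj => ?_
      exact hvb (t j) (Finset.mem_image.2 ⟨j, hj, rfl⟩)
    have h4 : (v \ ((⋃ j ∈ Finset.range (k + 1), v \ t j) ∪ Iio k)).Infinite :=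
      (hT.1 v hvT).sdiff (h3.union (finite_Iio k))
    obtain ⟨b, hbv, hb⟩ := h4.nonempty
    simp only [mem_union, mem_iUnion, not_or, mem_Iio, not_lt] at hb
    refine ⟨b, hb.2, fun j hj => ?_⟩
    by_contra hbj
    exact hb.1 ⟨j, Finset.mem_range.2 (by omega), hbv, hbj⟩
  choose b hb1 hb2 using h2
  refine hT.2.2 ⟨range b, ?_, fun u hu => ?_⟩
  · refine Set.infinite_of_not_bddAbove ?_
    rintro ⟨M, hM⟩
    have h3 := hM ⟨M + 1, rfl⟩
    have h4 := hb1 (M + 1)
    omega
  · obtain ⟨m, hm⟩ := h1 u hu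
    refine (hm.union ((finite_Iio m).image b)).subset ?_
    rintro _ ⟨⟨k, rfl⟩, hk⟩
    by_cases hkm : k < m
    · exact Or.inr ⟨k, hkm, rfl⟩
    · exact Or.inl ⟨hb2 k m (not_lt.1 hkm), hk⟩

/-- One complement of a member of a tower meets all members of a sequence of infinite sets. -/
lemma tower_hit {T : Set (Set ℕ)} (hT : IsTower T) (B : ℕ → Set ℕ) (hB : ∀ m, (B m).Infinite) :
    ∃ u ∈ T, ∀ m, (B m ∩ uᶜ).Nonempty := by
  have h1 : ∀ m, ∃ t ∈ T, (B m \ t).Infinite := by
    intro m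
    by_contra hcon
    push Not at hcon
    exact hT.2.2 ⟨B m, hB m, fun a ha => by simpa using hcon a ha⟩
  choose t ht htB using h1
  obtain ⟨u, hu, hut⟩ := tower_countable hT t ht
  refine ⟨u, hu, fun m => ?_⟩
  have h2 := ((htB m).sdiff (hut m)).nonempty
  obtain ⟨x, ⟨hxB, hxt⟩, hx⟩ := h2
  exact ⟨x, hxB, fun hxu => hx ⟨hxu, hxt⟩⟩

/-- The family used for the upper bound. -/
def towerFam (T : Set (Set ℕ)) : Set (Set ℕ) :=
  (fun t => tᶜ) '' T ∪ range (fun n : ℕ => (Iio n : Set ℕ))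

lemma tower_nonempty {T : Set (Set ℕ)} (hT : IsTower T) : T.Nonempty := by
  by_contra hcon
  rw [not_nonempty_iff_eq_empty] at hcon
  exact hT.2.2 ⟨univ, infinite_univ, fun a ha => by rw [hcon] at ha; exact absurd ha (notMem_empty a)⟩

lemma towerFam_generates {T : Set (Set ℕ)} (hT : IsTower T) : GeneratesIdeal (towerFam T) := by
  classical
  intro F hF hfin
  obtain ⟨t₀, ht₀⟩ := tower_nonempty hT
  -- the members of the tower whose complements occur
  obtain ⟨v, hv, hvb⟩ := tower_finite hT (insert t₀ ((F.image compl).filter (fun t => t ∈ T)))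
    (by
      intro a ha
      rcases Finset.mem_insert.1 ha with rfl | ha
      · exact ht₀
      · exact (Finset.mem_filter.1 ha).2) (Finset.insert_nonempty _ _)
  have hvT : v ∈ T := by
    rcases Finset.mem_insert.1 hv with rfl | hv
    · exact ht₀
    · exact (Finset.mem_filter.1 hv).2
  have h1 : (v ∩ ⋃ a ∈ F, a).Finite := by
    rw [inter_iUnion₂]
    refine Set.Finite.biUnion (Finset.finite_toSet _) fun a ha => ?_
    rcases hF a ha with ⟨t, ht, rfl⟩ | ⟨n, rfl⟩
    · have h2 := hvb t (Finset.mem_insert_of_mem (Finset.mem_filter.2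
        ⟨Finset.mem_image.2 ⟨tᶜ, ha, compl_compl t⟩, ht⟩))
      simpa [sdiff_eq] using h2
    · exact (finite_Iio n).subset inter_subset_right
  refine hT.1 v hvT ((h1.union hfin).subset fun x hx => ?_)
  by_cases hxF : x ∈ ⋃ a ∈ F, a
  · exact Or.inl ⟨hx, hxF⟩
  · exact Or.inr hxF

/-- The upper bound for the intersection. -/
lemma pKStar_inter_le {K : Set (Set ℕ)} (hK : IsIdeal K) {T : Set (Set ℕ)} (hT : IsTower T)
    {κ : Cardinal.{0}} (hκ : ℵ₀ ≤ κ) (hTκ : #T ≤ κ) :
    pKStar (pull K g0 ∩ pull K g1) ≤ (κ : WithTop Cardinal.{0}) := by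
  have hnot : ¬ KatetovLE (towerFam T) (pull K g0 ∩ pull K g1) := by
    rintro ⟨f, hf⟩
    have hrow := row_unbounded hK (f := f) (fun N => (hf (Iio N) (Or.inr ⟨N, rfl⟩)).2)
    obtain ⟨u, hu, hhit⟩ := tower_hit hT (fun m => range (fun n => f (Nat.pair m n))) (fun m => by
      refine Set.infinite_of_not_bddAbove ?_
      rintro ⟨M, hM⟩
      obtain ⟨n, hn⟩ := hrow m (M + 1)
      have h3 : f (Nat.pair m n) ≤ M := hM ⟨n, rfl⟩
      omega)
    refine not_mem_pull_of_rows hK (X := f ⁻¹' uᶜ) (fun m => ?_) (hf _ (Or.inl ⟨u, hu, rfl⟩)).1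
    obtain ⟨_, ⟨n, rfl⟩, hn⟩ := hhit m
    exact ⟨n, hn⟩
  have hcard : #(towerFam T) ≤ κ := by
    refine (mk_union_le _ _).trans ?_
    have h1 : #((fun t : Set ℕ => tᶜ) '' T) ≤ κ := mk_image_le.trans hTκ
    have h2 : #(range (fun n : ℕ => (Iio n : Set ℕ))) ≤ κ := (mk_range_le.trans (by simp)).trans hκ
    exact add_le_of_le hκ h1 h2
  refine (iInf₂_le (towerFam T) ⟨towerFam_generates hT, hnot⟩).trans ?_
  exact WithTop.coe_le_coe.2 hcard

lemma tower_uncountable {T : Set (Set ℕ)} (hT : IsTower T) : ℵ₀ < #T := by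
  by_contra hcon
  have hc : T.Countable := Cardinal.mk_le_aleph0_iff.1 (not_lt.1 hcon)
  obtain ⟨t, ht⟩ := hc.exists_eq_range (tower_nonempty hT)
  obtain ⟨u, hu, hut⟩ := tower_countable hT t (fun m => ht ▸ mem_range_self m)
  refine hT.2.2 ⟨u, hT.1 u hu, fun a ha => ?_⟩
  rw [ht] at ha
  obtain ⟨m, rfl⟩ := ha
  exact hut m

lemma split_infinite {B : Set ℕ} (hB : B.Infinite) :
    ∃ C ⊆ B, C.Infinite ∧ (B \ C).Infinite := by
  let e := hB.natEmbedding
  refine ⟨range (fun n => (e (2 * n) : ℕ)), ?_, ?_, ?_⟩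
  · rintro _ ⟨n, rfl⟩
    exact (e (2 * n)).2
  · refine Set.infinite_range_of_injective fun a b hab => ?_
    have h1 := e.injective (Subtype.ext hab)
    omega
  · refine (Set.infinite_range_of_injective (f := fun n => (e (2 * n + 1) : ℕ)) ?_).mono ?_
    · intro a b hab
      have h1 := e.injective (Subtype.ext hab)
      omega
    · rintro _ ⟨n, rfl⟩
      refine ⟨(e (2 * n + 1)).2, ?_⟩
      rintro ⟨k, hk⟩
      have h1 := e.injective (Subtype.ext hk)
      omega

/-- Towers exist. -/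
lemma exists_tower : ∃ T : Set (Set ℕ), IsTower T := by
  let r : {a : Set ℕ // a.Infinite} → {a : Set ℕ // a.Infinite} → Prop :=
    fun a b => (a.1 \ b.1).Finite
  have hmax := maxChain_spec (r := r)
  refine ⟨Subtype.val '' maxChain r, ?_, ?_, ?_⟩
  · rintro _ ⟨a, _, rfl⟩
    exact a.2
  · rintro _ ⟨a, ha, rfl⟩ _ ⟨b, hb, rfl⟩
    by_cases hab : a = b
    · left
      rw [hab]
      simp
    · exact hmax.1 ha hb hab
  · rintro ⟨B, hB, hBT⟩
    obtain ⟨C, hCB, hC, hBC⟩ := split_infinite hB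
    have hCT : ∀ a ∈ maxChain r, (C \ a.1).Finite := fun a ha =>
      (hBT a.1 ⟨a, ha, rfl⟩).subset (sdiff_subset_sdiff_left hCB)
    have h1 : maxChain r = insert ⟨C, hC⟩ (maxChain r) := by
      refine hmax.2 ?_ (subset_insert _ _)
      refine hmax.1.insert fun b hb _ => Or.inl (hCT b hb)
    have h2 : (⟨C, hC⟩ : {a : Set ℕ // a.Infinite}) ∈ maxChain r := by
      rw [h1]
      exact mem_insert _ _
    exact hBC (hBT C ⟨_, h2, rfl⟩)

lemma towerNumber_attained : ∃ T : Set (Set ℕ), IsTower T ∧ #T = towerNumber := by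
  obtain ⟨T, hT⟩ := exists_tower
  exact csInf_mem (s := {κ : Cardinal.{0} | ∃ T : Set (Set ℕ), IsTower T ∧ #T = κ}) ⟨_, T, hT, rfl⟩

/-- **(iv) fails if `2^𝔱 = 𝔠`.** -/
theorem iv_fails (hc : 2 ^ towerNumber = 𝔠) :
    ∃ J₀ J₁ : Set (Set ℕ), IsIdeal J₀ ∧ IsIdeal J₁ ∧
      pKStar (J₀ ∩ J₁) ≤ (towerNumber : WithTop Cardinal.{0}) ∧
      (towerNumber : WithTop Cardinal.{0}) < pKStar (osum J₀ J₁) := by
  obtain ⟨T, hT, hTn⟩ := towerNumber_attained
  have hκ : ℵ₀ ≤ towerNumber := by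
    rw [← hTn]
    exact (tower_uncountable hT).le
  obtain ⟨K, hK, hbig⟩ := exists_big_ideal hκ hc
  refine ⟨pull K g0, pull K g1, pull_isIdeal hK g0_surj, pull_isIdeal hK g1_surj,
    pKStar_inter_le hK hT hκ hTn.le, ?_⟩
  have h1 : ((Order.succ towerNumber : Cardinal.{0}) : WithTop Cardinal.{0}) ≤
      pKStar (osum (pull K g0) (pull K g1)) := by
    unfold pKStar
    refine le_iInf₂ fun A hA => ?_
    refine WithTop.coe_le_coe.2 (Order.succ_le_of_lt ?_)
    by_contra hcon
    have h2 := hbig A hA.1 (not_lt.1 hcon)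
    exact hA.2 (katetov_osum (katetov_pull hK g0 h2) (katetov_pull hK g1 h2))
  exact lt_of_lt_of_le (WithTop.coe_lt_coe.2 (Order.lt_succ towerNumber)) h1

end Pool.Agent.V11254.Kat
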